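import Pool.Agent.H216.PN.Mul

/-!
Real algebraic numbers are periods.
-/

set_option autoImplicit false

namespace Pool.Agent.H216.PN

open MeasureTheory Pool.Agent.H581R2

theorem PF_aeval {ι : Type} (f : Polynomial ℚ) (i : ι) :
    PF (fun u : ι → ℝ => (Polynomial.aeval (u i) f : ℝ)) := by
  refine ⟨Polynomial.aeval (MvPolynomial.X i) f, fun v => ?_⟩
  rw [← Polynomial.aeval_algHom_apply, MvPolynomial.aeval_X]

theorem alg_pos {α : ℝ} (h : IsAlgebraic ℚ α) (h0 : 0 < α) :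
    α ∈ AddSubgroup.closure Q54.KZ.vols := by
  obtain ⟨f, hf, hfα⟩ := h
  let R : Finset ℝ := (f.aroots ℝ).toFinset.erase α
  obtain ⟨δ, hδ, hR⟩ : ∃ δ > 0, ∀ r ∈ R, δ ≤ |r - α| := by
    by_cases hne : R.Nonempty
    · obtain ⟨r, hr, hmin⟩ := R.exists_min_image (fun r => |r - α|) hne
      refine ⟨|r - α|, ?_, hmin⟩
      exact abs_pos.2 (sub_ne_zero.2 (Finset.ne_of_mem_erase hr))
    · rw [Finset.not_nonempty_iff_eq_empty] at hne
      exact ⟨1, one_pos, fun r hr => by rw [hne] at hr; exact absurd hr (Finset.notMem_empty r)⟩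
  obtain ⟨a, ha1, ha2⟩ := exists_rat_btwn (show α - δ < α by linarith)
  obtain ⟨b, hb1, hb2⟩ := exists_rat_btwn (show α < α + δ by linarith)
  have huniq : ∀ s : ℝ, (Polynomial.aeval s f : ℝ) = 0 ∧ (a : ℝ) < s ∧ s < b ↔ s = α := by
    intro s
    constructor
    · rintro ⟨h1, h2, h3⟩
      by_contra h4
      have h5 : s ∈ R := by
        refine Finset.mem_erase.2 ⟨h4, ?_⟩
        rw [Multiset.mem_toFinset, Polynomial.mem_aroots]
        exact ⟨hf, h1⟩
      have h6 := hR s h5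
      have h7 : |s - α| < δ := by
        rw [abs_lt]
        constructor <;> linarith
      linarith
    · rintro rfl
      exact ⟨hfα, ha2, hb1⟩
  let S : Set (Unit → ℝ) := {t | ∃ s : ℝ, ((Polynomial.aeval s f : ℝ) = 0 ∧ (a : ℝ) < s ∧ s < b) ∧
    0 < t () ∧ t () < s}
  have hS : SA S := by
    refine SAP_exists (p := fun (t : Unit → ℝ) s => ((Polynomial.aeval s f : ℝ) = 0 ∧
      (a : ℝ) < s ∧ s < b) ∧ 0 < t () ∧ t () < s) ?_
    refine SAP.and (SAP.and ?_ (SAP.and ?_ ?_)) (SAP.and ?_ ?_)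
    · exact SAP.eq_zero (PF_aeval f none)
    · exact SAP.lt (PF.const a) (PF.coord _)
    · exact SAP.lt (PF.coord _) (PF.const b)
    · exact SAP.pos (PF.coord _)
    · exact SAP.lt (PF.coord _) (PF.coord _)
  have hSe : S = {t : Unit → ℝ | t () ∈ Set.Ioo 0 α} := by
    ext t
    constructor
    · rintro ⟨s, h1, h2, h3⟩
      rw [(huniq s).1 h1] at h3
      exact ⟨h2, h3⟩
    · rintro ⟨h2, h3⟩
      exact ⟨α, (huniq α).2 rfl, h2, h3⟩
  have hv : volume S = ENNReal.ofReal α := by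
    rw [hSe, Q54.KZ.volume_unit, Real.volume_Ioo, sub_zero]
  have h1 := SAV.t_SAV _ S hS (by rw [hv]; exact ENNReal.ofReal_ne_top)
  rwa [hv, ENNReal.toReal_ofReal h0.le] at h1

theorem alg_mem {α : ℝ} (h : IsAlgebraic ℚ α) : α ∈ AddSubgroup.closure Q54.KZ.vols := by
  rcases lt_trichotomy α 0 with h0 | h0 | h0
  · have h1 := AddSubgroup.neg_mem _ (alg_pos h.neg (neg_pos.2 h0))
    rwa [neg_neg] at h1
  · rw [h0]
    exact AddSubgroup.zero_mem _
  · exact alg_pos h h0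

end Pool.Agent.H216.PN
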