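import Pool.Agent.H216.PN.Cnv

/-!
The integral of a rational function over the whole space is `π` times a period: assembly.
-/

set_option autoImplicit false

namespace Pool.Agent.H216.PN

open MeasureTheory Pool.Agent.H581R2

theorem not_pos_of_nonpos {Q : Polynomial ℝ} (hd : 0 < Q.degree) (hl : Q.leadingCoeff ≤ 0) :
    ∃ y : ℝ, Q.eval y < 0 := by
  have h1 := Q.tendsto_atBot_of_leadingCoeff_nonpos hd hl
  obtain ⟨y, hy⟩ := (h1.eventually (Filter.eventually_lt_atBot 0)).exists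
  exact ⟨y, hy⟩

/-- positive polynomials have even degree -/
theorem even_of_pos {Q : Polynomial ℝ} (h : ∀ y : ℝ, 0 < Q.eval y) : Even Q.natDegree := by
  by_contra h1
  rw [Nat.not_even_iff_odd] at h1
  have hd : 0 < Q.natDegree := h1.pos
  rcases le_total Q.leadingCoeff 0 with h2 | h2
  · obtain ⟨y, hy⟩ := not_pos_of_nonpos (Polynomial.natDegree_pos_iff_degree_pos.1 hd) h2
    exact lt_asymm hy (h y)
  · have h3 : (Q.comp (-Polynomial.X)).natDegree = Q.natDegree := by
      rw [Polynomial.natDegree_comp, Polynomial.natDegree_neg, Polynomial.natDegree_X, mul_one]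
    have h4 : (Q.comp (-Polynomial.X)).leadingCoeff = -Q.leadingCoeff := by
      rw [Polynomial.leadingCoeff_comp (by
        rw [Polynomial.natDegree_neg, Polynomial.natDegree_X]
        exact one_ne_zero), Polynomial.leadingCoeff_neg, Polynomial.leadingCoeff_X,
        h1.neg_one_pow]
      ring
    obtain ⟨y, hy⟩ := not_pos_of_nonpos (Q := Q.comp (-Polynomial.X))
      (Polynomial.natDegree_pos_iff_degree_pos.1 (by rw [h3]; exact hd))
      (by rw [h4]; linarith)
    rw [Polynomial.eval_comp, Polynomial.eval_neg, Polynomial.eval_X] at hy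
    exact lt_asymm hy (h _)

theorem generic {n : ℕ} {G : UP (Fin n)} (hG : ∀ (x : Fin n → ℝ) (y : ℝ), 0 < (spec x G).eval y) :
    ∃ d : ℕ, ∀ᵐ x : Fin n → ℝ, (spec x G).natDegree = 2 * d := by
  have hG0 : G ≠ 0 := by
    rintro rfl
    have := hG (fun _ => 0) 0
    simp [spec] at this
  have h1 : ∀ᵐ x : Fin n → ℝ, (MvPolynomial.aeval x G.leadingCoeff : ℝ) ≠ 0 :=
    Q54.KZ.ae_ne_zero (Polynomial.leadingCoeff_ne_zero.2 hG0)
  have h2 : ∀ᵐ x : Fin n → ℝ, (spec x G).natDegree = G.natDegree := by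
    filter_upwards [h1] with x hx
    exact Polynomial.natDegree_map_of_leadingCoeff_ne_zero _ hx
  obtain ⟨x, hx⟩ := h2.exists
  have h3 := even_of_pos (hG x)
  rw [hx] at h3
  obtain ⟨d, hd⟩ := h3
  refine ⟨d, ?_⟩
  filter_upwards [h2] with x hx
  rw [hx, hd]
  ring

/-- the measure preserving map -/
theorem mp_cons (n : ℕ) : MeasurePreserving
    (MeasurableEquiv.piFinSuccAbove (fun _ : Fin (n + 1) => ℝ) 0).symm :=
  (volume_preserving_piFinSuccAbove (fun _ : Fin (n + 1) => ℝ) 0).symm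

theorem cons_eq {n : ℕ} (y : ℝ) (x : Fin n → ℝ) :
    (MeasurableEquiv.piFinSuccAbove (fun _ : Fin (n + 1) => ℝ) 0).symm (y, x) =
      (Fin.cons y x : Fin (n + 1) → ℝ) := by
  funext i
  refine Fin.cases ?_ (fun j => ?_) i
  · rfl
  · rfl

theorem comp_eq {n : ℕ} {α : Type} (f : (Fin (n + 1) → ℝ) → α) :
    (fun q : ℝ × (Fin n → ℝ) => f (Fin.cons q.1 q.2)) =
      f ∘ (MeasurableEquiv.piFinSuccAbove (fun _ : Fin (n + 1) => ℝ) 0).symm := by
  funext q
  rw [Function.comp, ← cons_eq]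

theorem lintegral_cons {n : ℕ} {f : (Fin (n + 1) → ℝ) → ENNReal} (hf : Measurable f) :
    ∫⁻ z, f z = ∫⁻ x : Fin n → ℝ, ∫⁻ y : ℝ, f (Fin.cons y x) := by
  have h1 : Measurable (fun q : ℝ × (Fin n → ℝ) => f (Fin.cons q.1 q.2)) := by
    rw [comp_eq]
    exact hf.comp (MeasurableEquiv.measurable _)
  rw [← lintegral_prod_symm' (μ := (volume : Measure ℝ)) (ν := (volume : Measure (Fin n → ℝ))) _ h1,
    ← Measure.volume_eq_prod, comp_eq]
  exact ((mp_cons n).lintegral_comp hf).symm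

theorem integral_cons {n : ℕ} {f : (Fin (n + 1) → ℝ) → ℝ} (hf : Integrable f) :
    (∀ᵐ x : Fin n → ℝ, Integrable fun y : ℝ => f (Fin.cons y x)) ∧
      Integrable (fun x : Fin n → ℝ => ∫ y : ℝ, f (Fin.cons y x)) ∧
        ∫ z, f z = ∫ x : Fin n → ℝ, ∫ y : ℝ, f (Fin.cons y x) := by
  have h1 : Integrable (fun q : ℝ × (Fin n → ℝ) => f (Fin.cons q.1 q.2))
      ((volume : Measure ℝ).prod (volume : Measure (Fin n → ℝ))) := by
    rw [comp_eq, ← Measure.volume_eq_prod]
    exact (mp_cons n).integrable_comp_of_integrable hf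
  refine ⟨h1.prod_left_ae, h1.integral_prod_right, ?_⟩
  rw [← integral_prod_symm _ h1, ← Measure.volume_eq_prod, comp_eq]
  exact ((mp_cons n).integral_comp' f).symm

/-- sections -/
theorem volume_section {n d : ℕ} {F G : UP (Fin n)} (σ : ℤ) {φ : (Fin n → ℝ) → ℝ}
    (hφ : ∀ᵐ x : Fin n → ℝ, ∀ g : ℝ, Gr d F G x g ↔ φ x = g) :
    ∃ S : Set (Fin (n + 1) → ℝ), SA S ∧
      volume S = ∫⁻ x : Fin n → ℝ, ENNReal.ofReal (σ * φ x) := by
  let S : Set (Fin (n + 1) → ℝ) := {w | ∃ g : ℝ, Gr d F G (fun i => w i.succ) g ∧ 0 < w 0 ∧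
    w 0 < σ * g}
  have hS : SA S := by
    refine SAP_exists (p := fun (w : Fin (n + 1) → ℝ) g => Gr d F G (fun i => w i.succ) g ∧
      0 < w 0 ∧ w 0 < σ * g) ?_
    refine SAP.and ?_ (SAP.and ?_ ?_)
    · exact SAP.preimage (φ := fun (u : Option (Fin (n + 1)) → ℝ) (o : Option (Fin n)) =>
        o.elim (u none) fun i => u (some i.succ)) (SAP_Gr d F G) (fun k => by
          cases k with
          | none => exact PF.coord _
          | some i => exact PF.coord _)
    · exact SAP.pos (PF.coord _)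
    · refine SAP.lt (PF.coord _) (PF.mul ?_ (PF.coord _))
      have := PF.const (ι := Option (Fin (n + 1))) (σ : ℚ)
      simpa using this
  refine ⟨S, hS, ?_⟩
  have hm := SA_measurable hS
  rw [← lintegral_indicator_one hm, lintegral_cons (measurable_one.indicator hm)]
  refine lintegral_congr_ae ?_
  filter_upwards [hφ] with x hx
  have h1 : ∀ y : ℝ, S.indicator (1 : (Fin (n + 1) → ℝ) → ENNReal) (Fin.cons y x) =
      (Set.Ioo 0 ((σ : ℝ) * φ x)).indicator 1 y := by
    intro y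
    have h2 : (Fin.cons y x : Fin (n + 1) → ℝ) ∈ S ↔ y ∈ Set.Ioo 0 ((σ : ℝ) * φ x) := by
      constructor
      · rintro ⟨g, h3, h4, h5⟩
        rw [(hx g).1 h3]
        exact ⟨h4, h5⟩
      · rintro ⟨h4, h5⟩
        exact ⟨φ x, (hx _).2 rfl, h4, h5⟩
    by_cases h3 : y ∈ Set.Ioo 0 ((σ : ℝ) * φ x)
    · rw [Set.indicator_of_mem h3, Set.indicator_of_mem (h2.2 h3)]
      rfl
    · rw [Set.indicator_of_notMem h3, Set.indicator_of_notMem fun h => h3 (h2.1 h)]
  simp only [h1]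
  rw [lintegral_indicator_one measurableSet_Ioo, Real.volume_Ioo, sub_zero]

/-- **The integral of a rational function over the whole space is `π` times a period.** -/
theorem backward {n : ℕ} (P Q : MvPolynomial (Fin (n + 1)) ℤ)
    (hQ : ∀ z : Fin (n + 1) → ℝ, 0 < (MvPolynomial.aeval z Q : ℝ))
    (hi : Integrable fun z : Fin (n + 1) → ℝ =>
      (MvPolynomial.aeval z P / MvPolynomial.aeval z Q : ℝ)) :
    ∃ x ∈ AddSubgroup.closure Q54.KZ.vols, Real.pi * x =
      ∫ z : Fin (n + 1) → ℝ, (MvPolynomial.aeval z P / MvPolynomial.aeval z Q : ℝ) := by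
  have huni : ∀ R : MvPolynomial (Fin (n + 1)) ℤ, ∃ F : UP (Fin n), ∀ (x : Fin n → ℝ) (y : ℝ),
      (MvPolynomial.aeval (Fin.cons y x : Fin (n + 1) → ℝ) R : ℝ) = (spec x F).eval y := by
    intro R
    obtain ⟨F, hF⟩ := exists_univ (MvPolynomial.rename (finSuccEquiv n)
      (MvPolynomial.map (Int.castRingHom ℚ) R))
    refine ⟨F, fun x y => ?_⟩
    rw [← hF, MvPolynomial.aeval_rename, ← algebraMap_int_eq,
      MvPolynomial.aeval_map_algebraMap ℚ]
    congr 2
    funext i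
    refine Fin.cases ?_ (fun j => ?_) i
    · simp
    · simp
  obtain ⟨F, hF⟩ := huni P
  obtain ⟨G, hG⟩ := huni Q
  have hGp : ∀ (x : Fin n → ℝ) (y : ℝ), 0 < (spec x G).eval y := fun x y => by
    rw [← hG]
    exact hQ _
  obtain ⟨h1, h2, h3⟩ := integral_cons hi
  simp only [hF, hG] at h1 h2 h3
  obtain ⟨d, hd⟩ := generic hGp
  have hφ : ∀ᵐ x : Fin n → ℝ, ∀ g : ℝ, Gr d F G x g ↔
      (∫ y : ℝ, (spec x F).eval y / (spec x G).eval y) / Real.pi = g := by
    filter_upwards [h1, hd] with x hx hdx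
    intro g
    rw [gr_iff (hGp x) hdx hx g, div_eq_iff Real.pi_ne_zero, mul_comm g]
    exact eq_comm
  obtain ⟨S, hS, hSv⟩ := volume_section 1 hφ
  obtain ⟨T, hT, hTv⟩ := volume_section (-1) hφ
  have hint : Integrable fun x : Fin n → ℝ =>
      (∫ y : ℝ, (spec x F).eval y / (spec x G).eval y) / Real.pi := h2.div_const _
  push_cast at hSv hTv
  simp only [one_mul, neg_mul] at hSv hTv
  have hSf : volume S ≠ ⊤ := by
    rw [hSv]
    exact hint.lintegral_lt_top.ne
  have hTf : volume T ≠ ⊤ := by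
    rw [hTv]
    exact hint.neg.lintegral_lt_top.ne
  refine ⟨(volume S).toReal - (volume T).toReal, AddSubgroup.sub_mem _
    (SAV.t_SAV _ S hS hSf) (SAV.t_SAV _ T hT hTf), ?_⟩
  rw [hSv, hTv, ← integral_eq_lintegral_pos_part_sub_lintegral_neg_part hint, h3, integral_div]
  field_simp

end Pool.Agent.H216.PN
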