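import Pool.Agent.H216.PN.StmC

/-!
The degree of an integrable rational function (helper729 for helper216).
-/

set_option autoImplicit false

namespace Pool.Agent.H216.PN.DEG

open MeasureTheory Polynomial Filter Asymptotics

theorem deg_core (P Q : ℝ[X]) (hQ : ∀ y : ℝ, 0 < Q.eval y)
    (hi : Integrable (fun y : ℝ => P.eval y / Q.eval y)) : P.degree < Q.degree := by
  by_contra hc
  obtain ⟨C, hC, hb⟩ := (Polynomial.isBigO_atTop_of_degree_le Q P (not_lt.1 hc)).exists_pos
  obtain ⟨T, hT⟩ := eventually_atTop.1 hb.bound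
  have h1 := hi.measure_norm_ge_lt_top (ε := 1 / C) (by positivity)
  have h2 : Set.Ici T ⊆ {y : ℝ | 1 / C ≤ ‖P.eval y / Q.eval y‖} := by
    intro y hy
    have h3 := hT y hy
    have h4 := hQ y
    show 1 / C ≤ ‖P.eval y / Q.eval y‖
    rw [Real.norm_of_nonneg h4.le] at h3
    rw [norm_div, Real.norm_of_nonneg h4.le, div_le_div_iff₀ hC h4]
    linarith
  have h5 : volume (Set.Ici T) < ⊤ := lt_of_le_of_lt (measure_mono h2) h1
  rw [Real.volume_Ici] at h5
  exact lt_irrefl _ h5

theorem t_DEG : Pool.Agent.H216.PN.S_DEG := deg_core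

end Pool.Agent.H216.PN.DEG
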