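import Pool.Agent.H216.PN.StmB

/-!
Project PN (helper216, MP_725b61_nt), part B: real partial fractions of a rational function without
real poles.
-/

set_option autoImplicit false

namespace Pool.Agent.H216.PN.PF

open MeasureTheory Polynomial

/-- the quadratic factor -/
noncomputable def quad (α β : ℝ) : ℝ[X] := (X - C α) ^ 2 + C (β ^ 2)

theorem quad_eval (α β y : ℝ) : (quad α β).eval y = (y - α) ^ 2 + β ^ 2 := by
  simp [quad]

theorem quad_natDegree (α β : ℝ) : (quad α β).natDegree = 2 := by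
  unfold quad
  compute_degree!

theorem quad_monic (α β : ℝ) : (quad α β).Monic := by
  have h1 : ((X - C α) ^ 2 : ℝ[X]).Monic := (monic_X_sub_C α).pow 2
  refine h1.add_of_left ?_
  have h2 : ((X - C α) ^ 2 : ℝ[X]).degree = 2 := by
    rw [degree_pow, degree_X_sub_C]
    norm_num
  rw [h2]
  refine lt_of_le_of_lt degree_C_le ?_
  norm_num

theorem quad_dvd {p : ℝ[X]} {z : ℂ} (h0 : aeval z p = 0) (hz : z.im ≠ 0) :
    quad z.re |z.im| ∣ p := by
  have h := Polynomial.quadratic_dvd_of_aeval_eq_zero_im_ne_zero p h0 hz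
  have e : (X ^ 2 - C (2 * z.re) * X + C (‖z‖ ^ 2) : ℝ[X]) = quad z.re |z.im| := by
    unfold quad
    have h1 : ‖z‖ ^ 2 = z.re ^ 2 + z.im ^ 2 := by
      rw [← Complex.normSq_eq_norm_sq, Complex.normSq_apply]
      ring
    rw [h1, sq_abs, C_add, C_mul, C_pow, C_pow, C_ofNat]
    ring
  rwa [e] at h

theorem quad_root (z : ℂ) : aeval z (quad z.re |z.im|) = 0 := by
  unfold quad
  have h1 : z - (z.re : ℂ) = z.im * Complex.I := by
    apply Complex.ext <;> simp
  have h2 : aeval z ((X - C z.re) ^ 2 + C (|z.im| ^ 2) : ℝ[X]) = (z - (z.re : ℂ)) ^ 2 + (z.im : ℂ) ^ 2 := by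
    rw [sq_abs]
    simp
  rw [h2, h1, mul_pow, Complex.I_sq]
  ring

theorem t_PF : S_PF := by
  intro n
  induction n with
  | zero =>
    intro P Q hQ hpos hdeg
    have hP : P = 0 := by
      by_contra hP
      have h1 := natDegree_lt_natDegree hP hdeg
      omega
    refine ⟨fun _ => 0, fun _ => 1, fun _ => 0, fun _ => 0, fun _ => 1, fun j => j.elim0,
      fun j => j.elim0, fun j => j.elim0, fun y => ?_⟩
    rw [hP]
    simp
  | succ n ih =>
    intro P Q hQ hpos hdeg
    have hQ0 : Q ≠ 0 := by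
      rintro rfl
      have := hpos 0
      simp at this
    have hQdeg : Q.degree ≠ 0 := by
      rw [degree_eq_natDegree hQ0, hQ]
      norm_cast
    obtain ⟨z, hz⟩ := IsAlgClosed.exists_aeval_eq_zero ℂ Q hQdeg
    have hzim : z.im ≠ 0 := by
      intro h
      have h1 : z = (algebraMap ℝ ℂ z.re) := by
        apply Complex.ext
        · simp
        · simp [h]
      rw [h1, aeval_algebraMap_apply_eq_algebraMap_eval] at hz
      have h2 := hpos z.re
      have h3 : Q.eval z.re = 0 := by
        have h4 := (algebraMap ℝ ℂ).injective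
        apply h4
        rw [hz, map_zero]
      linarith
    have hβ : 0 < |z.im| := abs_pos.mpr hzim
    obtain ⟨q, hq⟩ : ∃ q : ℝ[X], q = quad z.re |z.im| := ⟨_, rfl⟩
    have hqe : ∀ y : ℝ, q.eval y = (y - z.re) ^ 2 + |z.im| ^ 2 := by
      intro y; rw [hq, quad_eval]
    have hqd : q.natDegree = 2 := by rw [hq, quad_natDegree]
    have hqm : q.Monic := by rw [hq]; exact quad_monic _ _
    have hq0 : q ≠ 0 := hqm.ne_zero
    have hqpos : ∀ y : ℝ, 0 < q.eval y := by
      intro y
      rw [hqe]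
      positivity
    have hfin : FiniteMultiplicity q Q := by
      refine finiteMultiplicity_of_degree_pos_of_monic ?_ hqm hQ0
      rw [degree_eq_natDegree hq0, hqd]
      norm_num
    obtain ⟨Q2, hQ2, hnd⟩ := hfin.exists_eq_pow_mul_and_not_dvd
    obtain ⟨m, hm⟩ : ∃ m : ℕ, m = multiplicity q Q := ⟨_, rfl⟩
    rw [← hm] at hQ2
    have hqQ : q ∣ Q := by rw [hq]; exact quad_dvd hz hzim
    have hm1 : 1 ≤ m := by
      rcases Nat.eq_zero_or_pos m with h | h
      · rw [h, pow_zero, one_mul] at hQ2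
        rw [hQ2] at hqQ
        exact absurd hqQ hnd
      · exact h
    obtain ⟨k, rfl⟩ : ∃ k, m = k + 1 := ⟨m - 1, by omega⟩
    have hQ20 : Q2 ≠ 0 := by
      rintro rfl
      exact hnd (dvd_zero _)
    have hdQ : Q.natDegree = 2 * (k + 1) + Q2.natDegree := by
      rw [hQ2, natDegree_mul (pow_ne_zero _ hq0) hQ20, natDegree_pow, hqd]
      ring
    obtain ⟨Q1, hQ1⟩ : ∃ Q1 : ℝ[X], Q1 = q ^ k * Q2 := ⟨_, rfl⟩
    have hQQ1 : Q = q * Q1 := by rw [hQ1, hQ2]; ring
    have hQ10 : Q1 ≠ 0 := by rw [hQ1]; exact mul_ne_zero (pow_ne_zero _ hq0) hQ20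
    have hdQ1 : Q1.natDegree = 2 * n := by
      have h1 : Q.natDegree = 2 + Q1.natDegree := by rw [hQQ1, natDegree_mul hq0 hQ10, hqd]
      omega
    have hQ1pos : ∀ y : ℝ, 0 < Q1.eval y := by
      intro y
      have h1 := hpos y
      rw [hQQ1, eval_mul] at h1
      exact (pos_iff_pos_of_mul_pos h1).mp (hqpos y)
    have hQ2z : aeval z Q2 ≠ 0 := by
      intro h
      apply hnd
      rw [hq]
      exact quad_dvd h hzim
    -- the linear polynomial
    obtain ⟨w, hw⟩ : ∃ w : ℂ, w = aeval z P / aeval z Q2 := ⟨_, rfl⟩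
    obtain ⟨l, hl⟩ : ∃ l : ℝ[X], l = C (w.im / z.im) * (X - C z.re) + C w.re := ⟨_, rfl⟩
    have hlz : aeval z l = w := by
      have h1 : z - (z.re : ℂ) = z.im * Complex.I := by
        apply Complex.ext <;> simp
      have h2 : aeval z l = ((w.im / z.im : ℝ) : ℂ) * (z - (z.re : ℂ)) + (w.re : ℂ) := by
        rw [hl]; simp
      rw [h2, h1]
      have h3 : ((w.im / z.im : ℝ) : ℂ) * ((z.im : ℂ) * Complex.I) = (w.im : ℂ) * Complex.I := by
        rw [← mul_assoc, ← Complex.ofReal_mul, div_mul_cancel₀ _ hzim]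
      rw [h3, add_comm]
      exact Complex.re_add_im w
    have hld : l.natDegree ≤ 1 := by
      rw [hl]
      compute_degree
    have hle : ∀ y : ℝ, l.eval y = w.im / z.im * (y - z.re) + w.re := by
      intro y; rw [hl]; simp
    have hdvd : q ∣ P - l * Q2 := by
      rw [hq]
      refine quad_dvd ?_ hzim
      rw [map_sub, map_mul, hlz, hw, div_mul_cancel₀ _ hQ2z, sub_self]
    obtain ⟨P1, hP1⟩ := hdvd
    have hdP1 : P1.degree < Q1.degree := by
      by_cases hP10 : P1 = 0
      · rw [hP10, degree_zero, bot_lt_iff_ne_bot]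
        intro h
        exact hQ10 (degree_eq_bot.mp h)
      · apply degree_lt_degree
        have h1 : (P - l * Q2).natDegree = 2 + P1.natDegree := by
          rw [hP1, natDegree_mul hq0 hP10, hqd]
        have h2 : (P - l * Q2).natDegree ≤ max P.natDegree (l * Q2).natDegree :=
          natDegree_sub_le _ _
        have h3 : P.natDegree < Q.natDegree := by
          by_cases hP0 : P = 0
          · rw [hP0, natDegree_zero]; omega
          · exact natDegree_lt_natDegree hP0 hdeg
        have h4 : (l * Q2).natDegree ≤ l.natDegree + Q2.natDegree := natDegree_mul_le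
        omega
    obtain ⟨α, β, a, b, mm, h1, h2, h3, h4⟩ := ih P1 Q1 hdQ1 hQ1pos hdP1
    refine ⟨Fin.cons z.re α, Fin.cons |z.im| β, Fin.cons (w.im / z.im) a, Fin.cons w.re b,
      Fin.cons (k + 1) mm, ?_, ?_, ?_, ?_⟩
    · intro j
      refine Fin.cases ?_ (fun i => ?_) j
      · rw [Fin.cons_zero]; exact hβ
      · rw [Fin.cons_succ]; exact h1 i
    · intro j
      refine Fin.cases ?_ (fun i => ?_) j
      · rw [Fin.cons_zero]; omega
      · rw [Fin.cons_succ]; exact h2 i
    · intro j
      refine Fin.cases ?_ (fun i => ?_) j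
      · rw [Fin.cons_zero]; omega
      · rw [Fin.cons_succ]
        have := h3 i
        omega
    · intro y
      rw [Fin.sum_univ_succ]
      simp only [Fin.cons_zero, Fin.cons_succ]
      rw [← h4 y, ← hqe y, ← hle y]
      have h5 : P.eval y = l.eval y * Q2.eval y + q.eval y * P1.eval y := by
        have h6 := congrArg (eval y) hP1
        rw [eval_sub, eval_mul, eval_mul] at h6
        linarith
      have h7 : Q2.eval y ≠ 0 := by
        intro h
        have h8 := hpos y
        rw [hQ2, eval_mul, h, mul_zero] at h8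
        exact lt_irrefl _ h8
      have h8 : q.eval y ≠ 0 := (hqpos y).ne'
      have h9 : Q1.eval y ≠ 0 := (hQ1pos y).ne'
      have h10 : Q.eval y = q.eval y * Q1.eval y := by rw [hQQ1, eval_mul]
      have h11 : Q1.eval y = q.eval y ^ k * Q2.eval y := by rw [hQ1, eval_mul, eval_pow]
      rw [h5, h10, h11]
      field_simp
      ring

end Pool.Agent.H216.PN.PF
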