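import Pool.Agent.H216.PN.StmB

/-!
Project PN (helper216), task PI: the integral of a sum of partial fractions.
-/

set_option autoImplicit false

namespace Pool.Agent.H216.PN.PI

open MeasureTheory Polynomial Filter Topology

theorem tA {v : ℝ → ℝ} (hv : Tendsto (fun T => |v T|) atTop atTop) (β : ℝ) :
    Tendsto (fun T => v T / (v T ^ 2 + β ^ 2)) atTop (𝓝 0) := by
  refine squeeze_zero_norm (a := fun T => |v T|⁻¹) (fun T => ?_) (tendsto_inv_atTop_zero.comp hv)
  rw [Real.norm_eq_abs, abs_div, abs_of_nonneg (by positivity : (0 : ℝ) ≤ v T ^ 2 + β ^ 2)]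
  rcases eq_or_lt_of_le (abs_nonneg (v T)) with h | h
  · rw [← h]
    simp
  · rw [div_le_iff₀ (by rw [← sq_abs (v T)]; positivity), inv_mul_eq_div, le_div_iff₀ h]
    rw [← sq_abs (v T)]
    nlinarith [sq_nonneg β]

theorem tB {v : ℝ → ℝ} (hv : Tendsto (fun T => |v T|) atTop atTop) (β : ℝ) :
    Tendsto (fun T => 1 / (v T ^ 2 + β ^ 2)) atTop (𝓝 0) := by
  have h1 : Tendsto (fun T => v T ^ 2 + β ^ 2) atTop atTop := by
    apply tendsto_atTop_add_const_right
    have h2 := (tendsto_pow_atTop (α := ℝ) two_ne_zero).comp hv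
    refine h2.congr fun T => ?_
    simp
  refine h1.inv_tendsto_atTop.congr fun T => ?_
  rw [one_div, Pi.inv_apply]

theorem tC {v : ℝ → ℝ} (hv : Tendsto (fun T => |v T|) atTop atTop) (β : ℝ) (m : ℕ) :
    Tendsto (fun T => v T / (v T ^ 2 + β ^ 2) ^ (m + 1)) atTop (𝓝 0) := by
  have h := (tA hv β).mul ((tB hv β).pow m)
  rw [zero_mul] at h
  refine h.congr fun T => ?_
  obtain ⟨D, hD⟩ : ∃ D : ℝ, D = v T ^ 2 + β ^ 2 := ⟨_, rfl⟩
  rw [← hD, pow_succ D, one_div, inv_pow, div_eq_mul_inv, div_eq_mul_inv, mul_inv]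
  ring

theorem tD {v : ℝ → ℝ} (hv : Tendsto (fun T => |v T|) atTop atTop) (β : ℝ) (m : ℕ) :
    Tendsto (fun T => 1 / (v T ^ 2 + β ^ 2) ^ (m + 1)) atTop (𝓝 0) := by
  have h := (tB hv β).pow (m + 1)
  rw [zero_pow (Nat.succ_ne_zero m)] at h
  refine h.congr fun T => ?_
  rw [one_div, one_div, inv_pow]

theorem v1 (α : ℝ) : Tendsto (fun T : ℝ => |T - α|) atTop atTop :=
  tendsto_abs_atTop_atTop.comp (tendsto_atTop_add_const_right atTop (-α) tendsto_id)

theorem v2 (α : ℝ) : Tendsto (fun T : ℝ => |-T - α|) atTop atTop :=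
  tendsto_abs_atBot_atTop.comp
    (tendsto_atBot_add_const_right atTop (-α) tendsto_neg_atTop_atBot)

theorem dpos {β : ℝ} (hβ : 0 < β) (α y : ℝ) : 0 < (y - α) ^ 2 + β ^ 2 := by positivity

theorem derD (α β y : ℝ) : HasDerivAt (fun y : ℝ => (y - α) ^ 2 + β ^ 2) (2 * (y - α)) y := by
  have h := (((hasDerivAt_id y).sub_const α).pow 2).add_const (β ^ 2)
  simpa using h

theorem contI {β : ℝ} (hβ : 0 < β) (α : ℝ) (m : ℕ) :
    Continuous fun y : ℝ => 1 / ((y - α) ^ 2 + β ^ 2) ^ m :=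
  Continuous.div continuous_const (by fun_prop) fun y => (pow_pos (dpos hβ α y) m).ne'

theorem contJ {β : ℝ} (hβ : 0 < β) (α : ℝ) (m : ℕ) :
    Continuous fun y : ℝ => (y - α) / ((y - α) ^ 2 + β ^ 2) ^ m :=
  Continuous.div (by fun_prop) (by fun_prop) fun y => (pow_pos (dpos hβ α y) m).ne'

theorem der1 {β : ℝ} (hβ : 0 < β) (α y : ℝ) :
    HasDerivAt (fun y : ℝ => 1 / β * Real.arctan ((y - α) / β))
      (1 / ((y - α) ^ 2 + β ^ 2) ^ 1) y := by
  have h := ((((hasDerivAt_id y).sub_const α).div_const β).arctan).const_mul (1 / β)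
  refine h.congr_deriv ?_
  have := dpos hβ α y
  simp only [id]
  field_simp
  ring

theorem der2 {β : ℝ} (hβ : 0 < β) (α y : ℝ) (m : ℕ) :
    HasDerivAt (fun y : ℝ => (y - α) / ((y - α) ^ 2 + β ^ 2) ^ (m + 1))
      (2 * (m + 1) * β ^ 2 * (1 / ((y - α) ^ 2 + β ^ 2) ^ (m + 2)) -
        (2 * m + 1) * (1 / ((y - α) ^ 2 + β ^ 2) ^ (m + 1))) y := by
  have hD := dpos hβ α y
  have h := ((hasDerivAt_id y).sub_const α).div ((derD α β y).pow (m + 1))
    (pow_pos hD (m + 1)).ne'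
  refine h.congr_deriv ?_
  obtain ⟨D, hDe⟩ : ∃ D : ℝ, D = (y - α) ^ 2 + β ^ 2 := ⟨_, rfl⟩
  have hb : β ^ 2 = D - (y - α) ^ 2 := by rw [hDe]; ring
  simp only [id, Pi.pow_apply]
  rw [← hDe] at hD ⊢
  rw [hb]
  simp only [Nat.add_sub_cancel]
  push_cast
  field_simp
  ring

theorem der3 {β : ℝ} (hβ : 0 < β) (α y : ℝ) (m : ℕ) :
    HasDerivAt (fun y : ℝ => -(1 / (2 * (m + 1))) * (1 / ((y - α) ^ 2 + β ^ 2) ^ (m + 1)))
      ((y - α) / ((y - α) ^ 2 + β ^ 2) ^ (m + 2)) y := by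
  have hD := dpos hβ α y
  have h := (((hasDerivAt_const y (1 : ℝ)).div ((derD α β y).pow (m + 1))
    (pow_pos hD (m + 1)).ne')).const_mul (-(1 / (2 * ((m : ℝ) + 1))))
  refine h.congr_deriv ?_
  obtain ⟨D, hDe⟩ : ∃ D : ℝ, D = (y - α) ^ 2 + β ^ 2 := ⟨_, rfl⟩
  simp only [Pi.pow_apply]
  rw [← hDe] at hD ⊢
  simp only [Nat.add_sub_cancel]
  push_cast
  field_simp
  ring

theorem der4 {β : ℝ} (hβ : 0 < β) (α y : ℝ) :
    HasDerivAt (fun y : ℝ => 1 / 2 * Real.log ((y - α) ^ 2 + β ^ 2))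
      ((y - α) / ((y - α) ^ 2 + β ^ 2) ^ 1) y := by
  have hD := dpos hβ α y
  have h := ((derD α β y).log hD.ne').const_mul (1 / 2)
  refine h.congr_deriv ?_
  field_simp

/-- the even part -/
theorem limI {β : ℝ} (hβ : 0 < β) (α : ℝ) (m : ℕ) :
    Tendsto (fun T : ℝ => ∫ y in (-T)..T, 1 / ((y - α) ^ 2 + β ^ 2) ^ (m + 1)) atTop
      (𝓝 (Real.pi * kap (m + 1) / β ^ (2 * m + 1))) := by
  induction m with
  | zero =>
    have h : ∀ T : ℝ, ∫ y in (-T)..T, 1 / ((y - α) ^ 2 + β ^ 2) ^ (0 + 1) =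
        1 / β * Real.arctan ((T - α) / β) - 1 / β * Real.arctan ((-T - α) / β) := by
      intro T
      rw [zero_add]
      exact intervalIntegral.integral_eq_sub_of_hasDerivAt (fun y _ => der1 hβ α y)
        ((contI hβ α 1).intervalIntegrable _ _)
    simp only [h]
    have h1 : Tendsto (fun T : ℝ => (T - α) / β) atTop atTop :=
      (tendsto_atTop_add_const_right atTop (-α) tendsto_id).atTop_div_const hβ
    have h2 : Tendsto (fun T : ℝ => (-T - α) / β) atTop atBot :=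
      (tendsto_atBot_add_const_right atTop (-α) tendsto_neg_atTop_atBot).atBot_div_const hβ
    have h3 := ((tendsto_nhds_of_tendsto_nhdsWithin Real.tendsto_arctan_atTop).comp h1).const_mul
      (1 / β)
    have h4 := ((tendsto_nhds_of_tendsto_nhdsWithin Real.tendsto_arctan_atBot).comp h2).const_mul
      (1 / β)
    have h5 := h3.sub h4
    have h6 : Real.pi * kap (0 + 1) / β ^ (2 * 0 + 1) =
        1 / β * (Real.pi / 2) - 1 / β * -(Real.pi / 2) := by
      unfold kap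
      simp
      field_simp
      ring
    rw [h6]
    exact h5
  | succ m ih =>
    have hm : (0 : ℝ) < 2 * ((m : ℝ) + 1) * β ^ 2 := by positivity
    have h : ∀ T : ℝ, ∫ y in (-T)..T, 1 / ((y - α) ^ 2 + β ^ 2) ^ (m + 1 + 1) =
        (2 * m + 1) / (2 * ((m : ℝ) + 1) * β ^ 2) *
          (∫ y in (-T)..T, 1 / ((y - α) ^ 2 + β ^ 2) ^ (m + 1)) +
        1 / (2 * ((m : ℝ) + 1) * β ^ 2) * ((T - α) / ((T - α) ^ 2 + β ^ 2) ^ (m + 1) -
          (-T - α) / ((-T - α) ^ 2 + β ^ 2) ^ (m + 1)) := by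
      intro T
      have e1 := intervalIntegral.integral_eq_sub_of_hasDerivAt (a := -T) (b := T)
        (fun y _ => der2 hβ α y m)
        ((((contI hβ α (m + 2)).const_mul _).sub
          ((contI hβ α (m + 1)).const_mul _)).intervalIntegrable _ _)
      rw [← e1, intervalIntegral.integral_sub
        (((contI hβ α (m + 2)).const_mul _).intervalIntegrable _ _)
        (((contI hβ α (m + 1)).const_mul _).intervalIntegrable _ _),
        intervalIntegral.integral_const_mul, intervalIntegral.integral_const_mul]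
      field_simp
      ring
    simp only [h]
    have h1 := ih.const_mul ((2 * m + 1) / (2 * ((m : ℝ) + 1) * β ^ 2))
    have h2 := ((tC (v1 α) β m).sub (tC (v2 α) β m)).const_mul (1 / (2 * ((m : ℝ) + 1) * β ^ 2))
    have h3 := h1.add h2
    have h4 : Real.pi * kap (m + 1 + 1) / β ^ (2 * (m + 1) + 1) =
        (2 * m + 1) / (2 * ((m : ℝ) + 1) * β ^ 2) * (Real.pi * kap (m + 1) / β ^ (2 * m + 1)) +
        1 / (2 * ((m : ℝ) + 1) * β ^ 2) * (0 - 0) := by
      have hc : ((m : ℝ) + 1) * ((m + 1).centralBinom : ℝ) =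
          2 * (2 * m + 1) * (m.centralBinom : ℝ) := by
        exact_mod_cast Nat.succ_mul_centralBinom_succ m
      unfold kap
      simp only [Nat.add_sub_cancel]
      rw [sub_zero, mul_zero, add_zero]
      have h5 : ((m + 1).centralBinom : ℝ) =
          2 * (2 * m + 1) * (m.centralBinom : ℝ) / ((m : ℝ) + 1) := by
        rw [eq_div_iff (by positivity), ← hc]
        ring
      rw [h5, show 2 * (m + 1) + 1 = 2 * m + 1 + 2 by ring, pow_add β (2 * m + 1) 2, pow_succ 4 m]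
      field_simp
      ring
    rw [h4]
    exact h3

/-- the odd part -/
theorem limJ {β : ℝ} (hβ : 0 < β) (α : ℝ) (m : ℕ) :
    Tendsto (fun T : ℝ => ∫ y in (-T)..T, (y - α) / ((y - α) ^ 2 + β ^ 2) ^ (m + 1)) atTop
      (𝓝 0) := by
  cases m with
  | zero =>
    have h : ∀ T : ℝ, ∫ y in (-T)..T, (y - α) / ((y - α) ^ 2 + β ^ 2) ^ (0 + 1) =
        1 / 2 * Real.log (1 + (4 * α * ((-T - α) / ((-T - α) ^ 2 + β ^ 2)) +
          4 * α ^ 2 * (1 / ((-T - α) ^ 2 + β ^ 2)))) := by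
      intro T
      have e1 := intervalIntegral.integral_eq_sub_of_hasDerivAt (a := -T) (b := T)
        (fun y _ => der4 hβ α y) ((contJ hβ α 1).intervalIntegrable _ _)
      rw [zero_add, e1, ← mul_sub, ← Real.log_div (dpos hβ α T).ne' (dpos hβ α (-T)).ne']
      congr 2
      have := dpos hβ α (-T)
      field_simp
      ring
    simp only [h]
    have h1 := ((tA (v2 α) β).const_mul (4 * α)).add ((tB (v2 α) β).const_mul (4 * α ^ 2))
    have h2 := h1.const_add 1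
    rw [mul_zero, mul_zero, add_zero, add_zero] at h2
    have h3 := (h2.log one_ne_zero).const_mul (1 / 2)
    rw [Real.log_one, mul_zero] at h3
    exact h3
  | succ m =>
    have h : ∀ T : ℝ, ∫ y in (-T)..T, (y - α) / ((y - α) ^ 2 + β ^ 2) ^ (m + 1 + 1) =
        -(1 / (2 * ((m : ℝ) + 1))) * (1 / ((T - α) ^ 2 + β ^ 2) ^ (m + 1)) -
        -(1 / (2 * ((m : ℝ) + 1))) * (1 / ((-T - α) ^ 2 + β ^ 2) ^ (m + 1)) := by
      intro T
      exact intervalIntegral.integral_eq_sub_of_hasDerivAt (a := -T) (b := T)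
        (fun y _ => der3 hβ α y m) ((contJ hβ α (m + 2)).intervalIntegrable _ _)
    simp only [h]
    have h1 := ((tD (v1 α) β m).const_mul (-(1 / (2 * ((m : ℝ) + 1))))).sub
      ((tD (v2 α) β m).const_mul (-(1 / (2 * ((m : ℝ) + 1)))))
    rw [mul_zero, sub_zero] at h1
    exact h1

theorem limK {β : ℝ} (hβ : 0 < β) (α a b : ℝ) (m : ℕ) (hm : 1 ≤ m) :
    Tendsto (fun T : ℝ => ∫ y in (-T)..T, (a * (y - α) + b) / ((y - α) ^ 2 + β ^ 2) ^ m) atTop
      (𝓝 (Real.pi * (b * kap m / β ^ (2 * m - 1)))) := by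
  obtain ⟨k, rfl⟩ : ∃ k, m = k + 1 := ⟨m - 1, by omega⟩
  have h : ∀ T : ℝ, ∫ y in (-T)..T, (a * (y - α) + b) / ((y - α) ^ 2 + β ^ 2) ^ (k + 1) =
      a * (∫ y in (-T)..T, (y - α) / ((y - α) ^ 2 + β ^ 2) ^ (k + 1)) +
      b * (∫ y in (-T)..T, 1 / ((y - α) ^ 2 + β ^ 2) ^ (k + 1)) := by
    intro T
    rw [← intervalIntegral.integral_const_mul, ← intervalIntegral.integral_const_mul,
      ← intervalIntegral.integral_add
        (((contJ hβ α (k + 1)).const_mul _).intervalIntegrable _ _)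
        (((contI hβ α (k + 1)).const_mul _).intervalIntegrable _ _)]
    congr 1
    ext y
    rw [add_div, mul_div_assoc, mul_one_div]
  simp only [h]
  have h1 := ((limJ hβ α k).const_mul a).add ((limI hβ α k).const_mul b)
  have h2 : Real.pi * (b * kap (k + 1) / β ^ (2 * (k + 1) - 1)) =
      a * 0 + b * (Real.pi * kap (k + 1) / β ^ (2 * k + 1)) := by
    rw [show 2 * (k + 1) - 1 = 2 * k + 1 by omega]
    ring
  rw [h2]
  exact h1

theorem contK {β : ℝ} (hβ : 0 < β) (α a b : ℝ) (m : ℕ) :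
    Continuous fun y : ℝ => (a * (y - α) + b) / ((y - α) ^ 2 + β ^ 2) ^ m :=
  Continuous.div (by fun_prop) (by fun_prop) fun y => (pow_pos (dpos hβ α y) m).ne'

theorem t_PI : S_PI := by
  intro n α β a b m hβ hm hf
  have h1 := intervalIntegral_tendsto_integral hf tendsto_neg_atTop_atBot
    (tendsto_id : Tendsto (id : ℝ → ℝ) atTop atTop)
  have h2 : ∀ T : ℝ, ∫ y in (-T)..T,
      ∑ j, (a j * (y - α j) + b j) / ((y - α j) ^ 2 + β j ^ 2) ^ m j =
      ∑ j, ∫ y in (-T)..T, (a j * (y - α j) + b j) / ((y - α j) ^ 2 + β j ^ 2) ^ m j := by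
    intro T
    exact intervalIntegral.integral_finsetSum fun j _ =>
      (contK (hβ j) (α j) (a j) (b j) (m j)).intervalIntegrable _ _
  have h3 : Tendsto (fun T : ℝ => ∫ y in (-T)..T,
      ∑ j, (a j * (y - α j) + b j) / ((y - α j) ^ 2 + β j ^ 2) ^ m j) atTop
      (𝓝 (∑ j, Real.pi * (b j * kap (m j) / β j ^ (2 * m j - 1)))) := by
    simp only [h2]
    exact tendsto_finsetSum _ fun j _ => limK (hβ j) (α j) (a j) (b j) (m j) (hm j)
  rw [Finset.mul_sum]
  exact tendsto_nhds_unique h1 h3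

end Pool.Agent.H216.PN.PI
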