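import Pool.Agent.H216.PN.StmC

/-! # Finite volumes of semialgebraic sets are periods -/

set_option autoImplicit false

namespace Pool.Agent.H216.PN.SAV

open MeasureTheory

open scoped Classical in
/-- the list of the polynomials in `T` and of the negatives of the other ones of `Q` -/
noncomputable def lst {ι : Type} (Q T : Finset (MvPolynomial ι ℚ)) : List (MvPolynomial ι ℚ) :=
  T.toList ++ (Q \ T).toList.map fun q => -q

open scoped Classical in
theorem mem_lst {ι : Type} {Q T : Finset (MvPolynomial ι ℚ)} {x : ι → ℝ} :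
    (∀ p ∈ lst Q T, 0 < (MvPolynomial.aeval x p : ℝ)) ↔
      (∀ q ∈ T, 0 < (MvPolynomial.aeval x q : ℝ)) ∧
        ∀ q ∈ Q, q ∉ T → (MvPolynomial.aeval x q : ℝ) < 0 := by
  unfold lst
  constructor
  · intro h
    refine ⟨fun q hq => h q (List.mem_append_left _ (Finset.mem_toList.2 hq)), fun q hq hqT => ?_⟩
    have h1 := h (-q) (List.mem_append_right _ (List.mem_map.2
      ⟨q, Finset.mem_toList.2 (Finset.mem_sdiff.2 ⟨hq, hqT⟩), rfl⟩))
    rw [map_neg] at h1
    linarith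
  · rintro ⟨h1, h2⟩ p hp
    rcases List.mem_append.1 hp with hp | hp
    · exact h1 p (Finset.mem_toList.1 hp)
    · obtain ⟨q, hq, rfl⟩ := List.mem_map.1 hp
      have h3 := Finset.mem_sdiff.1 (Finset.mem_toList.1 hq)
      have h4 := h2 q h3.1 h3.2
      rw [map_neg]
      linarith

theorem t_SAV : S_SAV := by
  intro ι _ S hS hfin
  classical
  obtain ⟨Qs, hQ⟩ := hS
  obtain ⟨Q', hQ'⟩ : ∃ Q' : Finset (MvPolynomial ι ℚ), Q' = Qs.filter fun q => q ≠ 0 := ⟨_, rfl⟩
  obtain ⟨cell, hcell⟩ : ∃ cell : Finset (MvPolynomial ι ℚ) → Set (ι → ℝ),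
      cell = fun T => {x : ι → ℝ | ∀ p ∈ lst Q' T, 0 < (MvPolynomial.aeval x p : ℝ)} := ⟨_, rfl⟩
  have hmem : ∀ T x, x ∈ cell T ↔ (∀ q ∈ T, 0 < (MvPolynomial.aeval x q : ℝ)) ∧
        ∀ q ∈ Q', q ∉ T → (MvPolynomial.aeval x q : ℝ) < 0 := by
    intro T x
    rw [hcell]
    exact mem_lst
  have hS : ∀ T ⊆ Q', ∀ x ∈ cell T, ∀ y ∈ cell T, x ∈ S → y ∈ S := by
    intro T hT x hx y hy
    rw [hmem] at hx hy
    refine hQ x y fun q hq => ?_
    by_cases hq0 : q = 0
    · rw [hq0, map_zero (MvPolynomial.aeval x), map_zero (MvPolynomial.aeval y)]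
    have hqQ : q ∈ Q' := by
      rw [hQ', Finset.mem_filter]
      exact ⟨hq, hq0⟩
    by_cases hqT : q ∈ T
    · rw [sign_pos (hx.1 q hqT), sign_pos (hy.1 q hqT)]
    · rw [sign_neg (hx.2 q hqQ hqT), sign_neg (hy.2 q hqQ hqT)]
  obtain ⟨P, hP⟩ : ∃ P : Finset (Finset (MvPolynomial ι ℚ)),
      P = Q'.powerset.filter fun T => cell T ⊆ S := ⟨_, rfl⟩
  have hPm : ∀ T, T ∈ P ↔ T ⊆ Q' ∧ cell T ⊆ S := by
    intro T
    rw [hP, Finset.mem_filter, Finset.mem_powerset]
  have hae : S =ᵐ[volume] (⋃ T ∈ P, cell T : Set (ι → ℝ)) := by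
    have h1 : ∀ᵐ x : ι → ℝ, ∀ q ∈ Q', (MvPolynomial.aeval x q : ℝ) ≠ 0 := by
      rw [Filter.eventually_all_finset]
      intro q hq
      refine Q54.KZ.ae_ne_zero ?_
      rw [hQ', Finset.mem_filter] at hq
      exact hq.2
    filter_upwards [h1] with x hx
    refine propext ⟨fun hxS => ?_, fun hxU => ?_⟩
    · have hxc : x ∈ cell (Q'.filter fun q => 0 < (MvPolynomial.aeval x q : ℝ)) := by
        rw [hmem]
        refine ⟨fun q hq => (Finset.mem_filter.1 hq).2, fun q hq hqn => ?_⟩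
        have h2 : ¬ 0 < (MvPolynomial.aeval x q : ℝ) := fun h =>
          hqn (Finset.mem_filter.2 ⟨hq, h⟩)
        exact lt_of_le_of_ne (not_lt.1 h2) (hx q hq)
      exact Set.mem_biUnion ((hPm _).2 ⟨Finset.filter_subset _ _, fun y hy =>
        hS _ (Finset.filter_subset _ _) x hxc y hy hxS⟩) hxc
    · obtain ⟨T, hT, hxT⟩ := Set.mem_iUnion₂.1 hxU
      exact ((hPm T).1 hT).2 hxT
  have hdisj : Set.PairwiseDisjoint (↑P : Set (Finset (MvPolynomial ι ℚ))) cell := by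
    intro T hT T' hT' hne
    rw [Function.onFun, Set.disjoint_left]
    intro x hx hx'
    rw [hmem] at hx hx'
    refine hne (Finset.ext fun q => ⟨fun hq => ?_, fun hq => ?_⟩)
    · by_contra hq'
      have h1 := hx'.2 q (((hPm T).1 hT).1 hq) hq'
      exact lt_asymm h1 (hx.1 q hq)
    · by_contra hq'
      have h1 := hx.2 q (((hPm T').1 hT').1 hq) hq'
      exact lt_asymm h1 (hx'.1 q hq)
  have hmeas : ∀ T, MeasurableSet (cell T) := by
    intro T
    rw [hcell]
    exact Q54.KZ.measurableSet_poly _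
  have hne : ∀ T ∈ P, volume (cell T) ≠ ⊤ := fun T hT =>
    ne_top_of_le_ne_top hfin (measure_mono ((hPm T).1 hT).2)
  rw [measure_congr hae, measure_biUnion_finset hdisj fun T _ => hmeas T, ENNReal.toReal_sum hne]
  refine AddSubgroup.sum_mem _ fun T hT => ?_
  have h1 := hne T hT
  rw [hcell] at h1 ⊢
  exact Q54.KZ.toReal_mem _ h1

end Pool.Agent.H216.PN.SAV
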