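import Pool.Agent.H216.PN.Stm
import Pool.Graph.R_pool_sql_team_seeded_3997aac3.Q54.KZ.Mmt

/-!
Sums of integrals of square roots of rational functions as one region.
-/

set_option autoImplicit false

namespace Pool.Agent.H216.PN

open MeasureTheory MvPolynomial

section
variable {κ τ : Type} [Fintype κ] [Fintype τ]

/-- the polynomial which is negative exactly on the slabs -/
noncomputable def slabs (e : τ → ℕ) (N D : τ → MvPolynomial κ ℚ) : MvPolynomial (κ ⊕ Unit) ℚ :=
  ∏ i, (4 * (X (Sum.inr ()) - (e i : MvPolynomial (κ ⊕ Unit) ℚ) *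
    (2 + ∑ j, rename Sum.inl (N j))) ^ 2 * rename Sum.inl (D i) - rename Sum.inl (N i))

omit [Fintype κ] in
theorem aeval_slabs (e : τ → ℕ) (N D : τ → MvPolynomial κ ℚ) (x : κ → ℝ) (b : Unit → ℝ) :
    (aeval (Sum.elim x b : κ ⊕ Unit → ℝ) (slabs e N D) : ℝ) =
      ∏ i, (4 * (b () - e i * (2 + ∑ j, (aeval x (N j) : ℝ))) ^ 2 * aeval x (D i) -
        aeval x (N i)) := by
  have h1 : ∀ p : MvPolynomial κ ℚ, (aeval (Sum.elim x b : κ ⊕ Unit → ℝ)
      (rename Sum.inl p) : ℝ) = aeval x p := by
    intro p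
    rw [aeval_rename]
    rfl
  unfold slabs
  rw [map_prod]
  refine Finset.prod_congr rfl fun i _ => ?_
  simp only [map_sub, map_mul, map_pow, map_add, map_sum, h1, aeval_X, Sum.elim_inr, map_natCast,
    map_ofNat]

theorem measurable_aeval (p : MvPolynomial κ ℚ) :
    Measurable fun x : κ → ℝ => (aeval x p : ℝ) := by
  have h1 : Continuous fun x : κ → ℝ => (aeval x p : ℝ) := by
    have h2 : (fun x : κ → ℝ => (aeval x p : ℝ)) =
        fun x => eval x (map (algebraMap ℚ ℝ) p) := by
      funext x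
      rw [eval_map]
      rfl
    rw [h2]
    exact MvPolynomial.continuous_eval _
  exact h1.measurable

theorem sum_slabs (hS : S_SLB) {e : τ → ℕ} (he : Function.Injective e)
    (N D : τ → MvPolynomial κ ℚ)
    (hN : ∀ i (x : κ → ℝ), 0 ≤ (aeval x (N i) : ℝ)) (hD : ∀ i (x : κ → ℝ), 1 ≤ (aeval x (D i) : ℝ))
    (g : (κ → ℝ) → ENNReal) (hg : Measurable g) :
    ∫⁻ w in {w : κ ⊕ Unit → ℝ | (aeval w (slabs e N D) : ℝ) < 0}, g (fun i => w (Sum.inl i)) =
      ∑ i, ∫⁻ x, g x * ENNReal.ofReal (Real.sqrt ((aeval x (N i) : ℝ) / aeval x (D i))) := by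
  have hm : MeasurableSet {w : κ ⊕ Unit → ℝ | (aeval w (slabs e N D) : ℝ) < 0} :=
    measurableSet_lt (measurable_aeval _) measurable_const
  rw [← lintegral_indicator hm, Q54.KZ.lintegral_sum]
  · rw [← lintegral_finsetSum']
    · refine lintegral_congr fun x => ?_
      have h1 : ∀ b : Unit → ℝ, ({w : κ ⊕ Unit → ℝ | (aeval w (slabs e N D) : ℝ) < 0}.indicator
          (fun w => g fun i => w (Sum.inl i)) (Sum.elim x b)) =
          ({b : Unit → ℝ | b () ∈ {z : ℝ | ∏ i, (4 * (z - e i * (2 + ∑ j, (aeval x (N j) : ℝ))) ^ 2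
            * aeval x (D i) - aeval x (N i)) < 0}}).indicator (fun _ => g x) b := by
        intro b
        by_cases h : (aeval (Sum.elim x b : κ ⊕ Unit → ℝ) (slabs e N D) : ℝ) < 0
        · rw [Set.indicator_of_mem (show Sum.elim x b ∈ _ from h)]
          rw [aeval_slabs] at h
          rw [Set.indicator_of_mem (show b ∈ _ from h)]
          rfl
        · rw [Set.indicator_of_notMem (show Sum.elim x b ∉ _ from h)]
          rw [aeval_slabs] at h
          rw [Set.indicator_of_notMem (show b ∉ _ from h)]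
      rw [lintegral_congr h1, lintegral_indicator_const]
      · rw [Q54.KZ.volume_unit, hS τ _ _ e he (fun i => hN i x) (fun i => hD i x), Finset.mul_sum]
      · change MeasurableSet {b : Unit → ℝ | ∏ i, (4 * (b () - e i *
          (2 + ∑ j, (aeval x (N j) : ℝ))) ^ 2 * aeval x (D i) - aeval x (N i)) < 0}
        exact measurableSet_lt (by fun_prop) measurable_const
    · intro i _
      exact (hg.mul (((measurable_aeval _).div (measurable_aeval _)).sqrt.ennreal_ofReal)).aemeasurable
  · exact (hg.comp (measurable_pi_lambda _ fun i => measurable_pi_apply _)).indicator hm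

end

end Pool.Agent.H216.PN
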