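import Pool.Agent.H216.PN.Gra
import Pool.Agent.H216.PN.PF
import Pool.Agent.H216.PN.PI
import Pool.Agent.H216.PN.SAV
import Pool.Agent.H216.PN.DEG
import Pool.Agent.H216.PN.Sum

/-!
The integral of a rational function over the whole space is `π` times a period.
-/

set_option autoImplicit false

namespace Pool.Agent.H216.PN

open MeasureTheory Pool.Agent.H581R2

/-- the value of the sum of the integrals, divided by `π` -/
theorem gr_iff {ι : Type} {n : ℕ} {F G : UP ι} {x : ι → ℝ} (hG : ∀ y : ℝ, 0 < (spec x G).eval y)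
    (hn : (spec x G).natDegree = 2 * n)
    (hi : Integrable fun y : ℝ => (spec x F).eval y / (spec x G).eval y) (g : ℝ) :
    Gr n F G x g ↔ Real.pi * g = ∫ y : ℝ, (spec x F).eval y / (spec x G).eval y := by
  have hval : ∀ (m : Fin n → Fin (n + 1)) (c : Fin 4 → Fin n → ℝ), (∀ j, 0 < c 1 j) →
      (∀ j, 1 ≤ (m j : ℕ)) →
      (∀ y : ℝ, (spec x F).eval y * ∏ j, qf (c 0 j) (c 1 j) y ^ (m j : ℕ) =
        (spec x G).eval y * ∑ j, (c 2 j * (y - c 0 j) + c 3 j) *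
          ∏ i ∈ Finset.univ.erase j, qf (c 0 i) (c 1 i) y ^ (m i : ℕ)) →
      ∫ y : ℝ, (spec x F).eval y / (spec x G).eval y =
        Real.pi * ∑ j, c 3 j * kap (m j) / c 1 j ^ (2 * (m j : ℕ) - 1) := by
    intro m c h1 h2 h3
    have h4 : (fun y : ℝ => (spec x F).eval y / (spec x G).eval y) = fun y =>
        ∑ j, (c 2 j * (y - c 0 j) + c 3 j) / ((y - c 0 j) ^ 2 + c 1 j ^ 2) ^ (m j : ℕ) := by
      funext y
      have h5 : ∀ j, 0 < qf (c 0 j) (c 1 j) y := by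
        intro j
        unfold qf
        have := h1 j
        positivity
      have h6 : ∏ j, qf (c 0 j) (c 1 j) y ^ (m j : ℕ) ≠ 0 :=
        Finset.prod_ne_zero_iff.2 fun j _ => (pow_pos (h5 j) _).ne'
      have h7 : ∑ j, (c 2 j * (y - c 0 j) + c 3 j) / ((y - c 0 j) ^ 2 + c 1 j ^ 2) ^ (m j : ℕ) =
          (∑ j, (c 2 j * (y - c 0 j) + c 3 j) *
            ∏ i ∈ Finset.univ.erase j, qf (c 0 i) (c 1 i) y ^ (m i : ℕ)) /
              ∏ j, qf (c 0 j) (c 1 j) y ^ (m j : ℕ) := by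
        rw [Finset.sum_div]
        refine Finset.sum_congr rfl fun j _ => ?_
        rw [← Finset.mul_prod_erase Finset.univ _ (Finset.mem_univ j)]
        have h8 : ∏ i ∈ Finset.univ.erase j, qf (c 0 i) (c 1 i) y ^ (m i : ℕ) ≠ 0 :=
          Finset.prod_ne_zero_iff.2 fun j _ => (pow_pos (h5 j) _).ne'
        rw [mul_div_mul_right _ _ h8]
        rfl
      rw [h7, div_eq_div_iff (hG y).ne' h6, h3 y]
      ring
    rw [h4] at hi
    rw [h4]
    exact PI.t_PI n (c 0) (c 1) (c 2) (c 3) (fun j => (m j : ℕ)) h1 h2 hi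
  have hlast : ∀ (m : Fin n → Fin (n + 1)) (c : Fin 4 → Fin n → ℝ), (∀ j, 0 < c 1 j) → ∀ g : ℝ,
      (g * ∏ j, c 1 j ^ (2 * (m j : ℕ) - 1) =
        ∑ j, c 3 j * kap (m j) * ∏ i ∈ Finset.univ.erase j, c 1 i ^ (2 * (m i : ℕ) - 1)) ↔
      g = ∑ j, c 3 j * kap (m j) / c 1 j ^ (2 * (m j : ℕ) - 1) := by
    intro m c h1 g
    have h6 : ∏ j, c 1 j ^ (2 * (m j : ℕ) - 1) ≠ 0 :=
      Finset.prod_ne_zero_iff.2 fun j _ => (pow_pos (h1 j) _).ne'
    have h7 : ∑ j, c 3 j * kap (m j) / c 1 j ^ (2 * (m j : ℕ) - 1) =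
        (∑ j, c 3 j * kap (m j) * ∏ i ∈ Finset.univ.erase j, c 1 i ^ (2 * (m i : ℕ) - 1)) /
          ∏ j, c 1 j ^ (2 * (m j : ℕ) - 1) := by
      rw [Finset.sum_div]
      refine Finset.sum_congr rfl fun j _ => ?_
      rw [← Finset.mul_prod_erase Finset.univ _ (Finset.mem_univ j)]
      have h8 : ∏ i ∈ Finset.univ.erase j, c 1 i ^ (2 * (m i : ℕ) - 1) ≠ 0 :=
        Finset.prod_ne_zero_iff.2 fun j _ => (pow_pos (h1 j) _).ne'
      rw [mul_div_mul_right _ _ h8]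
    rw [h7, eq_div_iff h6]
  constructor
  · rintro ⟨m, c, h1, h2, h3, h4⟩
    have h5 := (hlast m (fun i j => c (finProdFinEquiv (i, j))) h1 g).1 h4
    rw [hval m (fun i j => c (finProdFinEquiv (i, j))) h1 h2 h3, ← h5]
  · intro hg
    obtain ⟨α, β, a, b, m, h1, h2, h3, h4⟩ := PF.t_PF n (spec x F) (spec x G) hn hG
      (DEG.t_DEG _ _ hG hi)
    let c : Fin 4 → Fin n → ℝ := ![α, β, a, b]
    let m' : Fin n → Fin (n + 1) := fun j => ⟨m j, Nat.lt_succ_of_le (h3 j)⟩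
    have h5 : ∀ y : ℝ, (spec x F).eval y * ∏ j, qf (c 0 j) (c 1 j) y ^ (m' j : ℕ) =
        (spec x G).eval y * ∑ j, (c 2 j * (y - c 0 j) + c 3 j) *
          ∏ i ∈ Finset.univ.erase j, qf (c 0 i) (c 1 i) y ^ (m' i : ℕ) := by
      intro y
      have h6 : ∀ j, qf (α j) (β j) y ^ m j ≠ 0 := by
        intro j
        unfold qf
        have := h1 j
        positivity
      have h7 := h4 y
      rw [div_eq_iff (hG y).ne'] at h7
      show (spec x F).eval y * ∏ j, qf (α j) (β j) y ^ m j =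
        (spec x G).eval y * ∑ j, (a j * (y - α j) + b j) *
          ∏ i ∈ Finset.univ.erase j, qf (α i) (β i) y ^ m i
      rw [h7, mul_comm (∑ j, (a j * (y - α j) + b j) / ((y - α j) ^ 2 + β j ^ 2) ^ m j),
        mul_assoc]
      congr 1
      rw [Finset.sum_mul]
      refine Finset.sum_congr rfl fun j _ => ?_
      rw [← Finset.mul_prod_erase Finset.univ _ (Finset.mem_univ j), ← mul_assoc]
      congr 1
      exact div_mul_cancel₀ _ (h6 j)
    have h6 := hval m' c h1 h2 h5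
    rw [← hg] at h6
    have h7 := mul_left_cancel₀ Real.pi_ne_zero h6
    refine ⟨m', fun k => c (finProdFinEquiv.symm k).1 (finProdFinEquiv.symm k).2, ?_⟩
    simp only [Equiv.symm_apply_apply]
    exact ⟨h1, h2, h5, (hlast m' c h1 g).2 h7⟩

end Pool.Agent.H216.PN
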