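import Pool.Agent.H216.PN.Stm

/-!
Project PN (helper216, MP_725b61_nt): extrapolation to zero (by helper806)
-/

set_option autoImplicit false

namespace Pool.Agent.H216.PN.EXT

open Pool.Agent.H216.PN Polynomial

theorem t_EXT : S_EXT := by
  intro k P _ v
  obtain ⟨Q, hQ⟩ : ∃ Q : ℝ[X], Q = ∏ j : Fin k, (if P j then 1 - X * C v else X * C v) := ⟨_, rfl⟩
  have hd : Q.natDegree < k + 1 := by
    have h1 : Q.natDegree ≤ ∑ _j : Fin k, 1 := by
      rw [hQ]
      refine (natDegree_prod_le _ _).trans (Finset.sum_le_sum fun j _ => ?_)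
      have h2 : (X * C v : ℝ[X]).natDegree ≤ 1 :=
        (natDegree_mul_C_le _ _).trans natDegree_X_le
      show natDegree (if P j then 1 - X * C v else X * C v) ≤ 1
      split_ifs
      · exact (natDegree_sub_le _ _).trans (max_le (by rw [natDegree_one]; exact zero_le_one) h2)
      · exact h2
    rw [Finset.sum_const, Finset.card_univ, Fintype.card_fin, smul_eq_mul, mul_one] at h1
    exact Nat.lt_succ_of_le h1
  have he : ∀ x : ℝ, Q.eval x = ∏ j : Fin k, (if P j then 1 - x * v else x * v) := by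
    intro x
    rw [hQ, eval_prod]
    refine Finset.prod_congr rfl fun j _ => ?_
    split_ifs
    · rw [eval_sub, eval_one, eval_mul, eval_X, eval_C]
    · rw [eval_mul, eval_X, eval_C]
  have h0 := congrFun (Polynomial.fwdDiff_iter_eq_zero_of_degree_lt hd) 0
  rw [fwdDiff_iter_eq_sum_shift] at h0
  have h1 : ∑ m ∈ Finset.range (k + 1 + 1), (-1 : ℝ) ^ m * ((k + 1).choose m : ℝ) *
      Q.eval (m : ℝ) = 0 := by
    have h2 : ∑ m ∈ Finset.range (k + 1 + 1), (-1 : ℝ) ^ m * ((k + 1).choose m : ℝ) *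
        Q.eval (m : ℝ) = (-1 : ℝ) ^ (k + 1) * ∑ m ∈ Finset.range (k + 1 + 1),
          ((-1 : ℤ) ^ (k + 1 - m) * (k + 1).choose m) • Q.eval ((0 : ℝ) + m • (1 : ℝ)) := by
      rw [Finset.mul_sum]
      refine Finset.sum_congr rfl fun m hm => ?_
      have h3 : m ≤ k + 1 := Nat.lt_succ_iff.1 (Finset.mem_range.1 hm)
      have h4 : (-1 : ℝ) ^ (k + 1) * (-1) ^ (k + 1 - m) = (-1) ^ m := by
        have h5 : (-1 : ℝ) ^ (k + 1) = (-1) ^ (k + 1 - m) * (-1) ^ m := by
          rw [← pow_add, Nat.sub_add_cancel h3]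
        rw [h5, mul_assoc, mul_comm ((-1 : ℝ) ^ m), ← mul_assoc, ← mul_pow]
        simp
      rw [← h4, zsmul_eq_mul, nsmul_eq_mul, zero_add, mul_one]
      push_cast
      ring
    rw [h2, h0]
    simp
  rw [Finset.sum_range_succ'] at h1
  have h3 : Q.eval ((0 : ℕ) : ℝ) = ∏ j : Fin k, (if P j then (1 : ℝ) else 0) := by
    rw [he]
    refine Finset.prod_congr rfl fun j _ => ?_
    simp
  rw [h3] at h1
  simp only [pow_zero, Nat.choose_zero_right, Nat.cast_one, mul_one, one_mul] at h1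
  have h4 : ∑ t ∈ Finset.range (k + 1), (-1 : ℝ) ^ t * ((k + 1).choose (t + 1) : ℝ) *
      ∏ j, (if P j then 1 - ((t : ℝ) + 1) * v else ((t : ℝ) + 1) * v) =
      - ∑ t ∈ Finset.range (k + 1), (-1 : ℝ) ^ (t + 1) * ((k + 1).choose (t + 1) : ℝ) *
        Q.eval ((t + 1 : ℕ) : ℝ) := by
    rw [← Finset.sum_neg_distrib]
    refine Finset.sum_congr rfl fun t _ => ?_
    rw [he, pow_succ]
    push_cast
    ring
  rw [h4]
  linarith

end Pool.Agent.H216.PN.EXT
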