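import Pool.Agent.H216.PN.Stm

set_option autoImplicit false

namespace Pool.Agent.H216.PN.GAD

open MeasureTheory Set Filter Topology

theorem hasDeriv_F {e : ℝ} (he : 0 < e) (v : ℝ) :
    HasDerivAt (fun v : ℝ => v / Real.sqrt (v ^ 2 + e)) (e / (Real.sqrt (v ^ 2 + e)) ^ 3) v := by
  have hq : 0 < v ^ 2 + e := by positivity
  have hs : 0 < Real.sqrt (v ^ 2 + e) := Real.sqrt_pos.mpr hq
  have h1 : HasDerivAt (fun v : ℝ => v ^ 2 + e) (2 * v) v := by
    have := (hasDerivAt_pow 2 v).add_const e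
    simpa using this
  have h2 := h1.sqrt hq.ne'
  have h3 := (hasDerivAt_id v).div h2 hs.ne'
  have h4 : e / Real.sqrt (v ^ 2 + e) ^ 3 = (1 * Real.sqrt (v ^ 2 + e) -
      id v * (2 * v / (2 * Real.sqrt (v ^ 2 + e)))) / Real.sqrt (v ^ 2 + e) ^ 2 := by
    have hsq : Real.sqrt (v ^ 2 + e) ^ 2 = v ^ 2 + e := Real.sq_sqrt hq.le
    generalize Real.sqrt (v ^ 2 + e) = s at hs hsq
    simp only [id]
    field_simp
    linarith [hsq]
  rw [h4]
  exact h3

theorem tendsto_F {e : ℝ} (he : 0 < e) :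
    Tendsto (fun v : ℝ => v / Real.sqrt (v ^ 2 + e)) atTop (𝓝 1) := by
  have h1 : Tendsto (fun v : ℝ => (Real.sqrt (1 + e / v ^ 2))⁻¹) atTop (𝓝 1) := by
    have h2 : Tendsto (fun v : ℝ => e / v ^ 2) atTop (𝓝 0) :=
      tendsto_const_nhds.div_atTop (tendsto_pow_atTop (by norm_num))
    have h3 : Tendsto (fun v : ℝ => 1 + e / v ^ 2) atTop (𝓝 (1 + 0)) := h2.const_add 1
    have h4 := (h3.sqrt).inv₀ (by simp)
    simpa using h4
  refine h1.congr' ?_
  filter_upwards [eventually_gt_atTop 0] with v hv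
  have : v ^ 2 + e = v ^ 2 * (1 + e / v ^ 2) := by field_simp
  rw [this, Real.sqrt_mul (by positivity), Real.sqrt_sq hv.le]
  have : 0 < Real.sqrt (1 + e / v ^ 2) := Real.sqrt_pos.mpr (by positivity)
  field_simp

/-- the density on the half line -/
noncomputable def f (e P C y : ℝ) : ℝ := e / 2 * P * y / (Real.sqrt ((y ^ 2 * P - C) ^ 2 + e)) ^ 3

theorem hasDeriv_G {e : ℝ} (he : 0 < e) (P C y : ℝ) :
    HasDerivAt (fun y : ℝ => (y ^ 2 * P - C) / Real.sqrt ((y ^ 2 * P - C) ^ 2 + e) / 4)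
      (f e P C y) y := by
  have h1 : HasDerivAt (fun y : ℝ => y ^ 2 * P - C) (2 * y * P) y := by
    have := ((hasDerivAt_pow 2 y).mul_const P).sub_const C
    simpa using this
  have h2 := ((hasDeriv_F he (y ^ 2 * P - C)).comp y h1).div_const 4
  have h3 : e / Real.sqrt ((y ^ 2 * P - C) ^ 2 + e) ^ 3 * (2 * y * P) / 4 = f e P C y := by
    unfold f
    ring
  rw [← h3]
  exact h2

theorem tendsto_G {e P : ℝ} (he : 0 < e) (hP : 0 < P) (C : ℝ) :
    Tendsto (fun y : ℝ => (y ^ 2 * P - C) / Real.sqrt ((y ^ 2 * P - C) ^ 2 + e) / 4) atTop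
      (𝓝 (1 / 4)) := by
  have h1 : Tendsto (fun y : ℝ => y ^ 2 * P - C) atTop atTop := by
    have h2 : Tendsto (fun y : ℝ => y ^ 2 * P) atTop atTop :=
      (tendsto_pow_atTop (by norm_num)).atTop_mul_const hP
    simpa [sub_eq_add_neg] using tendsto_atTop_add_const_right atTop (-C) h2
  exact ((tendsto_F he).comp h1).div_const 4

theorem integral_f {e P : ℝ} (he : 0 < e) (hP : 0 < P) (C : ℝ) :
    ∫ y in Ioi (0 : ℝ), f e P C y = 1 / 4 + C / Real.sqrt (C ^ 2 + e) / 4 := by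
  have h := integral_Ioi_of_hasDerivAt_of_nonneg' (a := 0)
    (fun y _ => hasDeriv_G he P C y)
    (fun y hy => by
      have hy0 : (0 : ℝ) < y := hy
      unfold f
      positivity) (tendsto_G he hP C)
  rw [h]
  simp
  ring

theorem gd_eq {B t p : ℝ} (h0 : 0 < t) (h1 : t < B) (s : ℝ) (hs : s ^ 2 = 1) (hsp : s * p = |p|)
    (y : ℝ) : gd B t p y = f (4 * t * (B - t)) |p| (s * (B - 2 * t)) |y| := by
  have he : 0 < 4 * t * (B - t) := by
    have := sub_pos.mpr h1
    positivity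
  unfold gd f
  have hq : (y ^ 2 * p) ^ 2 - 2 * (B - 2 * t) * (y ^ 2 * p) + B ^ 2 =
      (|y| ^ 2 * |p| - s * (B - 2 * t)) ^ 2 + 4 * t * (B - t) := by
    rw [sq_abs, ← hsp]
    linear_combination (-(y ^ 2 * p) ^ 2 + 2 * (B - 2 * t) * (y ^ 2 * p) - (B - 2 * t) ^ 2) * hs
  rw [hq]
  set q := (|y| ^ 2 * |p| - s * (B - 2 * t)) ^ 2 + 4 * t * (B - t) with hqdef
  have hqp : 0 < q := by positivity
  have h3 : Real.sqrt (q ^ 3) = Real.sqrt q ^ 3 := by
    have h4 : q ^ 3 = (Real.sqrt q ^ 3) ^ 2 := by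
      rw [← pow_mul, mul_comm 3 2, pow_mul, Real.sq_sqrt hqp.le]
    rw [h4, Real.sqrt_sq (by positivity)]
  rw [Real.sqrt_div (by positivity), h3, Real.sqrt_sq_eq_abs]
  congr 1
  rw [abs_mul, abs_mul, abs_of_pos (by nlinarith : (0 : ℝ) < 2 * t * (B - t))]
  ring

theorem t_GAD : S_GAD := by
  intro B t p h0 h1 hp
  have hB : 0 < B := h0.trans h1
  have he : 0 < 4 * t * (B - t) := by
    have := sub_pos.mpr h1
    positivity
  have hP : 0 < |p| := abs_pos.mpr hp
  obtain ⟨s, hs, hsp, hval⟩ : ∃ s : ℝ, s ^ 2 = 1 ∧ s * p = |p| ∧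
      (if 0 < p then 1 - t / B else t / B) = 2 * (1 / 4 + s * (B - 2 * t) / B / 4) := by
    by_cases h : 0 < p
    · refine ⟨1, by norm_num, by rw [abs_of_pos h, one_mul], ?_⟩
      rw [if_pos h]
      field_simp
      ring
    · have h' : p < 0 := lt_of_le_of_ne (not_lt.mp h) hp
      refine ⟨-1, by norm_num, by rw [abs_of_neg h']; ring, ?_⟩
      rw [if_neg h]
      field_simp
      ring
  have hfun : (fun y : ℝ => gd B t p y) =
      fun y => f (4 * t * (B - t)) |p| (s * (B - 2 * t)) |y| := by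
    funext y
    exact gd_eq h0 h1 s hs hsp y
  have hsqrt : Real.sqrt ((s * (B - 2 * t)) ^ 2 + 4 * t * (B - t)) = B := by
    have : (s * (B - 2 * t)) ^ 2 + 4 * t * (B - t) = B ^ 2 := by
      linear_combination (B - 2 * t) ^ 2 * hs
    rw [this, Real.sqrt_sq hB.le]
  have hint : ∫ y, gd B t p y = (if 0 < p then 1 - t / B else t / B) := by
    rw [hfun, integral_comp_abs (f := f (4 * t * (B - t)) |p| (s * (B - 2 * t))),
      integral_f he hP, hsqrt, hval]
  have hpos : 0 < (if 0 < p then 1 - t / B else t / B) := by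
    split_ifs
    · have : t / B < 1 := (div_lt_one hB).mpr h1
      linarith
    · positivity
  have hI : Integrable (fun y => gd B t p y) := by
    by_contra hc
    rw [integral_undef hc] at hint
    exact absurd hint.symm hpos.ne'
  have hnn : 0 ≤ᵐ[volume] fun y => gd B t p y :=
    Filter.Eventually.of_forall fun y => Real.sqrt_nonneg _
  rw [← ofReal_integral_eq_lintegral_ofReal hI hnn, hint]

end Pool.Agent.H216.PN.GAD
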