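import Pool.Agent.H216.PN.Stm

/-! # PN-MOM (helper706): a density with mean `s` -/

set_option autoImplicit false

open MeasureTheory Filter Topology

namespace Pool.Agent.H216.PN.MOM

open Pool.Agent.H216.PN

theorem dens (v : ℝ) : Real.sqrt (1 / (4 * (v ^ 2 + 1) ^ 3)) =
    1 / (2 * ((v ^ 2 + 1) * Real.sqrt (v ^ 2 + 1))) := by
  have hw : 0 < v ^ 2 + 1 := by positivity
  have h1 : 0 < Real.sqrt (v ^ 2 + 1) := Real.sqrt_pos.2 hw
  rw [Real.sqrt_eq_iff_mul_self_eq (by positivity) (by positivity)]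
  have h2 : Real.sqrt (v ^ 2 + 1) * Real.sqrt (v ^ 2 + 1) = v ^ 2 + 1 := Real.mul_self_sqrt hw.le
  have h3 : 1 / (2 * ((v ^ 2 + 1) * Real.sqrt (v ^ 2 + 1))) *
      (1 / (2 * ((v ^ 2 + 1) * Real.sqrt (v ^ 2 + 1)))) =
      1 / (4 * (v ^ 2 + 1) ^ 2 * (Real.sqrt (v ^ 2 + 1) * Real.sqrt (v ^ 2 + 1))) := by
    field_simp
    ring
  rw [h3, h2]
  congr 1
  ring

theorem lim_inv (l : Filter ℝ) (hl : Tendsto (fun v : ℝ => v ^ 2) l atTop) :
    Tendsto (fun v : ℝ => 1 / (v ^ 2 + 1)) l (𝓝 0) := by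
  have h := (tendsto_atTop_add_const_right l (1 : ℝ) hl).inv_tendsto_atTop
  refine h.congr fun v => ?_
  change (v ^ 2 + 1)⁻¹ = 1 / (v ^ 2 + 1)
  rw [one_div]

theorem sq_top : Tendsto (fun v : ℝ => v ^ 2) atTop atTop := tendsto_pow_atTop two_ne_zero

theorem sq_bot : Tendsto (fun v : ℝ => v ^ 2) atBot atTop := by
  have h := sq_top.comp (tendsto_neg_atBot_atTop (G := ℝ))
  refine h.congr fun v => ?_
  change (-v) ^ 2 = v ^ 2
  ring

theorem lim_ratio_top : Tendsto (fun v : ℝ => v / Real.sqrt (v ^ 2 + 1)) atTop (𝓝 1) := by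
  have h1 : Tendsto (fun v : ℝ => Real.sqrt (1 - 1 / (v ^ 2 + 1))) atTop (𝓝 (Real.sqrt (1 - 0))) :=
    (Real.continuous_sqrt.tendsto _).comp (tendsto_const_nhds.sub (lim_inv _ sq_top))
  rw [sub_zero, Real.sqrt_one] at h1
  refine h1.congr' ?_
  filter_upwards [eventually_ge_atTop (0 : ℝ)] with v hv
  have hw : 0 < v ^ 2 + 1 := by positivity
  have e : 1 - 1 / (v ^ 2 + 1) = v ^ 2 / (v ^ 2 + 1) := by
    field_simp
    ring
  rw [e, Real.sqrt_div (sq_nonneg v), Real.sqrt_sq hv]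

theorem lim_ratio_bot : Tendsto (fun v : ℝ => v / Real.sqrt (v ^ 2 + 1)) atBot (𝓝 (-1)) := by
  have h := (lim_ratio_top.comp (tendsto_neg_atBot_atTop (G := ℝ))).neg
  refine h.congr fun v => ?_
  change -(-v / Real.sqrt ((-v) ^ 2 + 1)) = v / Real.sqrt (v ^ 2 + 1)
  rw [neg_div, neg_neg, neg_sq]

theorem lim_rsqrt (l : Filter ℝ) (hl : Tendsto (fun v : ℝ => v ^ 2) l atTop) :
    Tendsto (fun v : ℝ => -(1 / 2) * (1 / Real.sqrt (v ^ 2 + 1))) l (𝓝 0) := by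
  have h1 : Tendsto (fun v : ℝ => Real.sqrt (1 / (v ^ 2 + 1))) l (𝓝 (Real.sqrt 0)) :=
    (Real.continuous_sqrt.tendsto _).comp (lim_inv l hl)
  rw [Real.sqrt_zero] at h1
  have h2 := h1.const_mul (-(1 / 2))
  rw [mul_zero] at h2
  refine h2.congr fun v => ?_
  rw [Real.sqrt_div zero_le_one, Real.sqrt_one]

theorem der_s (v : ℝ) : HasDerivAt (fun v : ℝ => Real.sqrt (v ^ 2 + 1))
    (v / Real.sqrt (v ^ 2 + 1)) v := by
  have hw : 0 < v ^ 2 + 1 := by positivity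
  have h1 : HasDerivAt (fun v : ℝ => v ^ 2 + 1) (2 * v) v := by
    have h := (hasDerivAt_pow 2 v).add_const (1 : ℝ)
    have e : ((2 : ℕ) : ℝ) * v ^ (2 - 1) = 2 * v := by norm_num
    rwa [e] at h
  have h2 := h1.sqrt hw.ne'
  have e : 2 * v / (2 * Real.sqrt (v ^ 2 + 1)) = v / Real.sqrt (v ^ 2 + 1) := by
    rw [mul_div_mul_left _ _ two_ne_zero]
  rwa [e] at h2

theorem der1 (v : ℝ) : HasDerivAt (fun v : ℝ => (1 / 2) * (v / Real.sqrt (v ^ 2 + 1)))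
    (Real.sqrt (1 / (4 * (v ^ 2 + 1) ^ 3))) v := by
  have hw : 0 < v ^ 2 + 1 := by positivity
  have hs : 0 < Real.sqrt (v ^ 2 + 1) := Real.sqrt_pos.2 hw
  have h2 : Real.sqrt (v ^ 2 + 1) ^ 2 = v ^ 2 + 1 := Real.sq_sqrt hw.le
  have h := ((hasDerivAt_id v).div (der_s v) hs.ne').const_mul (1 / 2)
  have e : 1 / 2 * ((1 * Real.sqrt (v ^ 2 + 1) - id v * (v / Real.sqrt (v ^ 2 + 1))) /
      Real.sqrt (v ^ 2 + 1) ^ 2) = Real.sqrt (1 / (4 * (v ^ 2 + 1) ^ 3)) := by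
    rw [dens, id, h2]
    have h3 : 1 * Real.sqrt (v ^ 2 + 1) - v * (v / Real.sqrt (v ^ 2 + 1)) =
        1 / Real.sqrt (v ^ 2 + 1) := by
      rw [eq_div_iff hs.ne', sub_mul, one_mul, ← sq, h2]
      field_simp
      ring
    rw [h3]
    field_simp
  rw [e] at h
  exact h

theorem der2 (v : ℝ) : HasDerivAt (fun v : ℝ => -(1 / 2) * (1 / Real.sqrt (v ^ 2 + 1)))
    (v * Real.sqrt (1 / (4 * (v ^ 2 + 1) ^ 3))) v := by
  have hw : 0 < v ^ 2 + 1 := by positivity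
  have hs : 0 < Real.sqrt (v ^ 2 + 1) := Real.sqrt_pos.2 hw
  have h2 : Real.sqrt (v ^ 2 + 1) ^ 2 = v ^ 2 + 1 := Real.sq_sqrt hw.le
  have h := ((hasDerivAt_const v (1 : ℝ)).div (der_s v) hs.ne').const_mul (-(1 / 2))
  have e : -(1 / 2) * ((0 * Real.sqrt (v ^ 2 + 1) - 1 * (v / Real.sqrt (v ^ 2 + 1))) /
      Real.sqrt (v ^ 2 + 1) ^ 2) = v * Real.sqrt (1 / (4 * (v ^ 2 + 1) ^ 3)) := by
    rw [dens, h2]
    field_simp
    ring
  rw [e] at h
  exact h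

theorem dens_nonneg (v : ℝ) : 0 ≤ Real.sqrt (1 / (4 * (v ^ 2 + 1) ^ 3)) := Real.sqrt_nonneg _

theorem dens_cont : Continuous fun v : ℝ => Real.sqrt (1 / (4 * (v ^ 2 + 1) ^ 3)) := by
  refine Real.continuous_sqrt.comp (continuous_const.div (by fun_prop) fun v => ?_)
  positivity

theorem dens_le (v : ℝ) : Real.sqrt (1 / (4 * (v ^ 2 + 1) ^ 3)) * Real.sqrt (v ^ 2 + 1) ≤
    (1 + v ^ 2)⁻¹ := by
  have hw : 0 < v ^ 2 + 1 := by positivity
  have hs : 0 < Real.sqrt (v ^ 2 + 1) := Real.sqrt_pos.2 hw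
  have e : 1 / (2 * ((v ^ 2 + 1) * Real.sqrt (v ^ 2 + 1))) * Real.sqrt (v ^ 2 + 1) =
      (1 / 2) * (1 + v ^ 2)⁻¹ := by
    field_simp
    ring
  rw [dens, e]
  have h : 0 < (1 + v ^ 2)⁻¹ := by positivity
  linarith

theorem int1 : Integrable fun v : ℝ => Real.sqrt (1 / (4 * (v ^ 2 + 1) ^ 3)) := by
  refine integrable_inv_one_add_sq.mono' dens_cont.aestronglyMeasurable
    (Eventually.of_forall fun v => ?_)
  rw [Real.norm_of_nonneg (dens_nonneg v)]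
  refine le_trans ?_ (dens_le v)
  have h1 : (1 : ℝ) ≤ Real.sqrt (v ^ 2 + 1) := by
    rw [Real.one_le_sqrt]
    nlinarith [sq_nonneg v]
  have h2 := dens_nonneg v
  nlinarith

theorem int2 : Integrable fun v : ℝ => v * Real.sqrt (1 / (4 * (v ^ 2 + 1) ^ 3)) := by
  refine integrable_inv_one_add_sq.mono' (continuous_id.mul dens_cont).aestronglyMeasurable
    (Eventually.of_forall fun v => ?_)
  rw [norm_mul, Real.norm_of_nonneg (dens_nonneg v), Real.norm_eq_abs, mul_comm]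
  refine le_trans ?_ (dens_le v)
  have h1 : |v| ≤ Real.sqrt (v ^ 2 + 1) := by
    rw [← Real.sqrt_sq_eq_abs]
    exact Real.sqrt_le_sqrt (by linarith)
  exact mul_le_mul_of_nonneg_left h1 (dens_nonneg v)

theorem tot1 : ∫ v : ℝ, Real.sqrt (1 / (4 * (v ^ 2 + 1) ^ 3)) = 1 := by
  rw [integral_of_hasDerivAt_of_tendsto der1 int1 (lim_ratio_bot.const_mul (1 / 2))
    (lim_ratio_top.const_mul (1 / 2))]
  norm_num

theorem tot2 : ∫ v : ℝ, v * Real.sqrt (1 / (4 * (v ^ 2 + 1) ^ 3)) = 0 := by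
  rw [integral_of_hasDerivAt_of_tendsto der2 int2 (lim_rsqrt _ sq_bot) (lim_rsqrt _ sq_top)]
  norm_num

theorem t_MOM : S_MOM := by
  intro s
  have i1 : Integrable fun u : ℝ => Real.sqrt (1 / (4 * ((u - s) ^ 2 + 1) ^ 3)) :=
    int1.comp_sub_right s
  have i2 : Integrable fun u : ℝ => (u - s) * Real.sqrt (1 / (4 * ((u - s) ^ 2 + 1) ^ 3)) :=
    int2.comp_sub_right s
  have t1 : ∫ u : ℝ, Real.sqrt (1 / (4 * ((u - s) ^ 2 + 1) ^ 3)) = 1 := by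
    rw [integral_sub_right_eq_self (fun v : ℝ => Real.sqrt (1 / (4 * (v ^ 2 + 1) ^ 3))) s, tot1]
  have t2 : ∫ u : ℝ, (u - s) * Real.sqrt (1 / (4 * ((u - s) ^ 2 + 1) ^ 3)) = 0 := by
    rw [integral_sub_right_eq_self (fun v : ℝ => v * Real.sqrt (1 / (4 * (v ^ 2 + 1) ^ 3))) s, tot2]
  have e : (fun u : ℝ => u * Real.sqrt (1 / (4 * ((u - s) ^ 2 + 1) ^ 3))) = fun u : ℝ =>
      (u - s) * Real.sqrt (1 / (4 * ((u - s) ^ 2 + 1) ^ 3)) +
        s * Real.sqrt (1 / (4 * ((u - s) ^ 2 + 1) ^ 3)) := by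
    funext u
    ring
  refine ⟨?_, ?_, ?_⟩
  · rw [← ofReal_integral_eq_lintegral_ofReal i1 (Eventually.of_forall fun u => Real.sqrt_nonneg _),
      t1, ENNReal.ofReal_one]
  · rw [e]
    exact i2.add (i1.const_mul s)
  · rw [e, integral_add i2 (i1.const_mul s), integral_const_mul, t1, t2]
    ring

end Pool.Agent.H216.PN.MOM
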