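import Pool.Agent.H216.PN.Stm

/-!
# SLB: the length of the union of disjoint intervals (helper271)
-/

set_option autoImplicit false

namespace Pool.Agent.H216.PN.SLB

open MeasureTheory

theorem neg_iff {z l N D : ℝ} (hD : 1 ≤ D) :
    4 * (z - l) ^ 2 * D - N < 0 ↔
      z ∈ Set.Ioo (l - Real.sqrt (N / D) / 2) (l + Real.sqrt (N / D) / 2) := by
  have hD0 : 0 < D := by linarith
  have h1 : 4 * (z - l) ^ 2 * D - N < 0 ↔ (2 * (z - l)) ^ 2 < N / D := by
    rw [lt_div_iff₀ hD0]
    constructor <;> intro h <;> nlinarith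
  rw [h1, Real.sq_lt, Set.mem_Ioo]
  constructor
  · rintro ⟨h2, h3⟩
    exact ⟨by linarith, by linarith⟩
  · rintro ⟨h2, h3⟩
    exact ⟨by linarith, by linarith⟩

theorem near_of_nonpos {z l N D : ℝ} (hN : 0 ≤ N) (hD : 1 ≤ D)
    (h : 4 * (z - l) ^ 2 * D - N ≤ 0) : |z - l| ≤ (1 + N) / 4 := by
  have h1 : 4 * (z - l) ^ 2 ≤ N := by
    have : 4 * (z - l) ^ 2 * 1 ≤ 4 * (z - l) ^ 2 * D :=
      mul_le_mul_of_nonneg_left hD (by positivity)
    linarith
  refine abs_le_of_sq_le_sq ?_ (by linarith)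
  nlinarith [sq_nonneg (N - 1)]

theorem t_SLB : S_SLB := by
  intro τ _ N D e he hN hD
  classical
  set S : ℝ := ∑ j, N j with hS
  have hS0 : 0 ≤ S := Finset.sum_nonneg fun j _ => hN j
  have hNS : ∀ i, N i ≤ S := fun i => Finset.single_le_sum (fun j _ => hN j) (Finset.mem_univ i)
  -- the centres are far apart
  have hfar : ∀ i j, i ≠ j → 2 + S ≤ |(e i : ℝ) * (2 + S) - e j * (2 + S)| := by
    intro i j hij
    rw [← sub_mul, abs_mul, abs_of_pos (show 0 < 2 + S by linarith)]
    have h1 : (1 : ℝ) ≤ |(e i : ℝ) - e j| := by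
      have h2 : (e i : ℤ) - e j ≠ 0 := by
        intro h3
        apply hij
        apply he
        omega
      have h4 : (1 : ℤ) ≤ |(e i : ℤ) - e j| := Int.one_le_abs h2
      exact_mod_cast h4
    nlinarith
  have huniq : ∀ z : ℝ, ∀ i j, 4 * (z - e i * (2 + S)) ^ 2 * D i - N i ≤ 0 →
      4 * (z - e j * (2 + S)) ^ 2 * D j - N j ≤ 0 → i = j := by
    intro z i j hi hj
    by_contra hij
    have h1 := near_of_nonpos (hN i) (hD i) hi
    have h2 := near_of_nonpos (hN j) (hD j) hj
    have h3 := hfar i j hij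
    have h4 : |(e i : ℝ) * (2 + S) - e j * (2 + S)| ≤
        |z - e i * (2 + S)| + |z - e j * (2 + S)| := by
      have : (e i : ℝ) * (2 + S) - e j * (2 + S) =
          (z - e j * (2 + S)) - (z - e i * (2 + S)) := by ring
      rw [this]
      have h5 := abs_sub (z - e j * (2 + S)) (z - e i * (2 + S))
      linarith
    linarith [hNS i, hNS j]
  have hset : {z : ℝ | ∏ i, (4 * (z - e i * (2 + S)) ^ 2 * D i - N i) < 0} =
      ⋃ i, Set.Ioo ((e i : ℝ) * (2 + S) - Real.sqrt (N i / D i) / 2)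
        (e i * (2 + S) + Real.sqrt (N i / D i) / 2) := by
    ext z
    rw [Set.mem_ofPred_eq, Set.mem_iUnion]
    constructor
    · intro h
      by_contra hcon
      push Not at hcon
      have h1 : ∀ i, 0 ≤ 4 * (z - e i * (2 + S)) ^ 2 * D i - N i := by
        intro i
        by_contra h2
        push Not at h2
        exact hcon i ((neg_iff (hD i)).1 h2)
      exact absurd h (not_lt.2 (Finset.prod_nonneg fun i _ => h1 i))
    · rintro ⟨i, hi⟩
      have h1 := (neg_iff (hD i)).2 hi
      rw [← Finset.mul_prod_erase Finset.univ _ (Finset.mem_univ i)]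
      refine mul_neg_of_neg_of_pos h1 (Finset.prod_pos fun j hj => ?_)
      by_contra h2
      push Not at h2
      exact (Finset.ne_of_mem_erase hj) (huniq z j i h2 h1.le)
  have hdisj : Pairwise (Function.onFun Disjoint fun i =>
      Set.Ioo ((e i : ℝ) * (2 + S) - Real.sqrt (N i / D i) / 2)
        (e i * (2 + S) + Real.sqrt (N i / D i) / 2)) := by
    intro i j hij
    rw [Function.onFun, Set.disjoint_left]
    intro z hi hj
    exact hij (huniq z i j ((neg_iff (hD i)).2 hi).le ((neg_iff (hD j)).2 hj).le)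
  rw [hset, measure_iUnion hdisj (fun i => measurableSet_Ioo), tsum_fintype]
  refine Finset.sum_congr rfl fun i _ => ?_
  rw [Real.volume_Ioo]
  congr 1
  ring

end Pool.Agent.H216.PN.SLB
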