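import Pool.Agent.H216.PN.Reg
import Pool.Agent.H216.PN.GAD
import Pool.Agent.H216.PN.SLB
import Pool.Agent.H216.PN.MOM
import Pool.Agent.H216.PN.EXT

/-!
Normal forms of periods.
-/

set_option autoImplicit false

namespace Pool.Agent.H216.PN

open MeasureTheory MvPolynomial

/-- a region of the library as a family of nonzero polynomials of any sufficiently large size -/
theorem exists_fam {κ : Type} [Fintype κ] (ps : List (MvPolynomial κ ℚ)) :
    ∃ k0 : ℕ, ∀ k, k0 ≤ k → ∃ p : Fin k → MvPolynomial κ ℚ, (∀ j, p j ≠ 0) ∧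
      {x : κ → ℝ | ∀ j, 0 < (aeval x (p j) : ℝ)} = Q54.KZ.pos ps := by
  classical
  let f : MvPolynomial κ ℚ → MvPolynomial κ ℚ := fun q => if q = 0 then -1 else q
  have hf0 : ∀ q, f q ≠ 0 := by
    intro q
    by_cases h : q = 0
    · simp only [f, if_pos h]
      exact neg_ne_zero.2 one_ne_zero
    · simp only [f, if_neg h]
      exact h
  have hf : ∀ (q : MvPolynomial κ ℚ) (x : κ → ℝ), 0 < (aeval x (f q) : ℝ) ↔
      0 < (aeval x q : ℝ) := by
    intro q x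
    by_cases h : q = 0
    · simp only [f, if_pos h, h, map_neg, map_one, map_zero]
      norm_num
    · simp only [f, if_neg h]
  let L : List (MvPolynomial κ ℚ) := (Finset.univ : Finset κ).toList.map X ++ ps
  refine ⟨L.length, fun k hk => ⟨fun j => f (L.getD j 1), fun j => hf0 _, ?_⟩⟩
  ext x
  simp only [Set.mem_ofPred_eq, Q54.KZ.pos, hf]
  have h1 : (∀ j : Fin k, 0 < (aeval x (L.getD j 1) : ℝ)) ↔ ∀ q ∈ L, 0 < (aeval x q : ℝ) := by
    constructor
    · intro h q hq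
      obtain ⟨i, hi, rfl⟩ := List.mem_iff_getElem.1 hq
      have := h ⟨i, lt_of_lt_of_le hi hk⟩
      rwa [List.getD_eq_getElem _ _ hi] at this
    · intro h j
      by_cases hj : (j : ℕ) < L.length
      · rw [List.getD_eq_getElem _ _ hj]
        exact h _ (List.getElem_mem hj)
      · rw [List.getD_eq_default _ _ (not_lt.1 hj), map_one]
        exact one_pos
  rw [h1]
  simp only [L, List.mem_append, List.mem_map, Finset.mem_toList, Finset.mem_univ, true_and]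
  constructor
  · intro h
    refine ⟨fun i => ?_, fun p hp => h p (Or.inr hp)⟩
    have := h (X i) (Or.inl ⟨i, rfl⟩)
    rwa [aeval_X] at this
  · rintro ⟨h2, h3⟩ q (⟨i, rfl⟩ | hq)
    · rw [aeval_X]
      exact h2 i
    · exact h3 q hq

/-- **The data of a period.** -/
theorem exists_data {x : ℝ} (hx : x ∈ AddSubgroup.closure Q54.KZ.vols) :
    ∃ (τ : Type) (_ : Fintype τ) (n : ℕ) (m : τ → ENNReal) (s : τ → ℤ), (∀ i, m i ≠ ⊤) ∧
      (∀ i, s i = 1 ∨ s i = -1) ∧ x = ∑ i, (s i : ℝ) * (m i).toReal ∧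
      ∀ c : τ → ℕ, ∃ F : MvPolynomial (Fin (n + 1)) ℤ, ∀ g : ℝ → ENNReal, Measurable g →
        ∫⁻ z in {z : Fin (n + 1) → ℝ | (aeval z F : ℝ) < 0}, g (z 0) =
          ∑ i, (∫⁻ u, g u * ENNReal.ofReal (rho (s i) u)) * (c i * m i) := by
  obtain ⟨a, ha, b, hb, hab⟩ := Q54.KZ.exists_sub (Q54.KZ.vols_le hx)
  obtain ⟨ι, _, ps, h1, h1'⟩ := ha
  obtain ⟨ι', _, qs, h2, h2'⟩ := hb
  obtain ⟨ps', h3⟩ := Q54.KZ.exists_pad (ι' := ι') ps
  obtain ⟨qs', h4⟩ := Q54.KZ.exists_pad' (ι := ι) qs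
  rw [← h3] at h1 h1'
  rw [← h4] at h2 h2'
  obtain ⟨k1, hk1⟩ := exists_fam ps'
  obtain ⟨k2, hk2⟩ := exists_fam qs'
  obtain ⟨p, hp, hpA⟩ := hk1 (max k1 k2) (le_max_left _ _)
  obtain ⟨q, hq, hqA⟩ := hk2 (max k1 k2) (le_max_right _ _)
  generalize max k1 k2 = k at p q hp hpA hq hqA
  rw [← hpA] at h1 h1'
  rw [← hqA] at h2 h2'
  obtain ⟨n, e, he⟩ := Q54.KZ.exists_fin
    (Sum.inl (Sum.inr ()) : Kap (ι ⊕ ι') k ⊕ Unit)
  let P : Bool → Fin k → MvPolynomial (ι ⊕ ι') ℚ := fun b => if b then p else q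
  have hP : ∀ b j, P b j ≠ 0 := by
    intro b j
    cases b
    · exact hq j
    · exact hp j
  have hPA : ∀ b, volume {x : ι ⊕ ι' → ℝ | ∀ j, 0 < (aeval x (P b j) : ℝ)} ≠ ⊤ := by
    intro b
    cases b
    · exact h2
    · exact h1
  let I : Bool × Fin (k + 1) → ENNReal := fun i =>
    ∫⁻ x : ι ⊕ ι' → ℝ, ENNReal.ofReal (cw (k + 2) (i.2 + 1) (P i.1) x)
  have hI : ∀ i, I i ≠ ⊤ := by
    intro i
    have h5 := integrable_cw (K := k + 2) (t := (i.2 : ℕ) + 1) (by omega) (P i.1) (hPA i.1)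
    exact h5.lintegral_lt_top.ne
  let s : Bool × Fin (k + 1) → ℤ := fun i => (-1) ^ (i.2 : ℕ) * (if i.1 then 1 else -1)
  refine ⟨Bool × Fin (k + 1), inferInstance, n, fun i => ((k + 1).choose (i.2 + 1) : ℕ) * I i, s,
    fun i => ENNReal.mul_ne_top (ENNReal.natCast_ne_top _) (hI i), ?_, ?_, ?_⟩
  · rintro ⟨b, i⟩
    simp only [s]
    rcases neg_one_pow_eq_or ℤ (i : ℕ) with h | h <;> rw [h] <;> cases b <;> simp
  · rw [hab, h1', h2', main_id EXT.t_EXT p h1, main_id EXT.t_EXT q h2, Fintype.sum_prod_type,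
      Fintype.sum_bool, ← Fin.sum_univ_eq_sum_range (fun t => (-1 : ℝ) ^ t *
        ((k + 1).choose (t + 1) : ℝ) * (∫⁻ x : ι ⊕ ι' → ℝ,
          ENNReal.ofReal (cw (k + 2) (t + 1) p x)).toReal),
      ← Fin.sum_univ_eq_sum_range (fun t => (-1 : ℝ) ^ t *
        ((k + 1).choose (t + 1) : ℝ) * (∫⁻ x : ι ⊕ ι' → ℝ,
          ENNReal.ofReal (cw (k + 2) (t + 1) q x)).toReal), sub_eq_add_neg,
      ← Finset.sum_neg_distrib]
    congr 1
    · refine Finset.sum_congr rfl fun i _ => ?_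
      simp only [s, I, P, if_true, ENNReal.toReal_mul, ENNReal.toReal_natCast]
      push_cast
      ring
    · refine Finset.sum_congr rfl fun i _ => ?_
      simp only [s, I, P, if_false, ENNReal.toReal_mul, ENNReal.toReal_natCast, Bool.false_eq_true]
      push_cast
      ring
  · intro c
    obtain ⟨F, hF⟩ := region SLB.t_SLB GAD.t_GAD e he (k + 2) (fun i : Bool × Fin (k + 1) =>
      (i.2 : ℕ) + 1) (fun i => c i * (k + 1).choose (i.2 + 1)) s (fun i => P i.1)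
      (fun i => by omega) (fun i => by omega) (fun i j => hP i.1 j)
    refine ⟨F, fun g hg => ?_⟩
    rw [hF g hg]
    refine Finset.sum_congr rfl fun i _ => ?_
    push_cast
    rw [mul_assoc ((c i : ℕ) : ENNReal)]

end Pool.Agent.H216.PN
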