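import Pool.Agent.H216.PN.Rat
import Pool.Agent.H216.PN.Fin

/-!
`π` times a real period is the integral of a rational function over the whole space.
-/

set_option autoImplicit false

namespace Pool.Agent.H216.PN

open MeasureTheory MvPolynomial

theorem mass (s : ℤ) : ∫⁻ u, ENNReal.ofReal (rho s u) = 1 :=
  (MOM.t_MOM (s : ℝ)).1

/-- periods are differences of the volumes of two regions, each given by one polynomial -/
theorem exists_two {x : ℝ} (h : x ∈ AddSubgroup.closure Q54.KZ.vols) :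
    ∃ (n : ℕ) (F G : MvPolynomial (Fin n) ℤ),
      volume {z : Fin n → ℝ | (aeval z F : ℝ) < 0} ≠ ⊤ ∧
      volume {z : Fin n → ℝ | (aeval z G : ℝ) < 0} ≠ ⊤ ∧
        x = (volume {z : Fin n → ℝ | (aeval z F : ℝ) < 0}).toReal -
          (volume {z : Fin n → ℝ | (aeval z G : ℝ) < 0}).toReal := by
  obtain ⟨τ, _, n, m, s, hm, hs, hx, hc⟩ := exists_data h
  obtain ⟨F, hF⟩ := hc fun i => if s i = 1 then 1 else 0
  obtain ⟨G, hG⟩ := hc fun i => if s i = 1 then 0 else 1
  have h1 := hF (fun _ => 1) measurable_const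
  have h2 := hG (fun _ => 1) measurable_const
  simp only [mass, one_mul, lintegral_const, Measure.restrict_apply_univ] at h1 h2
  have h3 : ∀ (a : τ → ℕ), ∑ i, (a i : ENNReal) * m i ≠ ⊤ := fun a =>
    ENNReal.sum_ne_top.2 fun i _ => ENNReal.mul_ne_top (ENNReal.natCast_ne_top _) (hm i)
  refine ⟨n + 1, F, G, ?_, ?_, ?_⟩
  · rw [h1]
    exact h3 _
  · rw [h2]
    exact h3 _
  · rw [h1, h2, hx,
      ENNReal.toReal_sum fun i _ => ENNReal.mul_ne_top (ENNReal.natCast_ne_top _) (hm i),
      ENNReal.toReal_sum fun i _ => ENNReal.mul_ne_top (ENNReal.natCast_ne_top _) (hm i),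
      ← Finset.sum_sub_distrib]
    refine Finset.sum_congr rfl fun i _ => ?_
    rw [ENNReal.toReal_mul, ENNReal.toReal_mul, ENNReal.toReal_natCast, ENNReal.toReal_natCast]
    rcases hs i with h | h <;> rw [h] <;> norm_num

theorem exists_pol {n : ℕ} (F : MvPolynomial (Fin n) ℤ) : ∃ p : MvPolynomial (Fin n) ℚ, p ≠ 0 ∧
    {x : Fin n → ℝ | ∀ _j : Fin 1, 0 < (aeval x p : ℝ)} =
      {z : Fin n → ℝ | (aeval z F : ℝ) < 0} := by
  have h1 : ∀ z : Fin n → ℝ, (aeval z (map (Int.castRingHom ℚ) F) : ℝ) = aeval z F := by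
    intro z
    rw [← algebraMap_int_eq, aeval_map_algebraMap ℚ z F]
  by_cases h : map (Int.castRingHom ℚ) F = 0
  · refine ⟨-1, neg_ne_zero.2 one_ne_zero, ?_⟩
    ext z
    have h2 : (aeval z F : ℝ) = 0 := by rw [← h1, h, map_zero]
    simp only [Set.mem_ofPred_eq, h2, map_neg, map_one, forall_const]
    norm_num
  · refine ⟨-map (Int.castRingHom ℚ) F, neg_ne_zero.2 h, ?_⟩
    ext z
    simp only [Set.mem_ofPred_eq, map_neg, h1, forall_const, Left.neg_pos_iff]

/-- `v` is the integral of a rational function with integer coefficients and positive denominator over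
the whole space `ℝ ^ (n + 1)`, for some `n` -/
def Whole (v : ℝ) : Prop :=
  ∃ (n : ℕ) (P Q : MvPolynomial (Fin (n + 1)) ℤ),
    (∀ z : Fin (n + 1) → ℝ, 0 < (aeval z Q : ℝ)) ∧
      Integrable (fun z : Fin (n + 1) → ℝ => (aeval z P / aeval z Q : ℝ)) ∧
        v = ∫ z : Fin (n + 1) → ℝ, (aeval z P / aeval z Q : ℝ)

/-- reindexing of integrals over the whole space -/
theorem reindex_int {κ : Type} [Fintype κ] [Nonempty κ] {f : (κ → ℝ) → ℝ} (hf : IsRat f)
    (hi : Integrable f) : Whole (∫ z, f z) := by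
  obtain ⟨P, Q, h1, h2⟩ := hf.int
  obtain ⟨n, hn⟩ := Nat.exists_eq_succ_of_ne_zero (Fintype.card_ne_zero (α := κ))
  let e : κ ≃ Fin (n + 1) := Fintype.equivFinOfCardEq hn
  have h3 : ∀ (R : MvPolynomial κ ℤ) (z : Fin (n + 1) → ℝ),
      (aeval z (rename e R) : ℝ) = aeval (fun i => z (e i)) R := by
    intro R z
    rw [aeval_rename]
    rfl
  have h7 := volume_preserving_arrowCongr' e.symm (MeasurableEquiv.refl ℝ)
    (MeasurePreserving.id volume)
  have h8 : ∀ z : Fin (n + 1) → ℝ,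
      ((aeval z (rename e P) : ℝ) / aeval z (rename e Q) : ℝ) =
        f ((MeasurableEquiv.arrowCongr' e.symm (MeasurableEquiv.refl ℝ)) z) := by
    intro z
    rw [h3, h3, h2]
    rfl
  refine ⟨n, rename e P, rename e Q, fun z => ?_, ?_, ?_⟩
  · rw [h3]
    exact h1 _
  · simp only [h8]
    exact h7.integrable_comp_of_integrable hi
  · simp only [h8]
    exact (h7.integral_comp' f).symm

/-- **`π` times a real period is the integral of a rational function over the whole space.** -/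
theorem forward {x : ℝ} (h : x ∈ AddSubgroup.closure Q54.KZ.vols) : Whole (Real.pi * x) := by
  obtain ⟨n, F, G, hF, hG, hx⟩ := exists_two h
  obtain ⟨p, hp, hpF⟩ := exists_pol F
  obtain ⟨q, hq, hqG⟩ := exists_pol G
  rw [← hpF] at hF hx
  rw [← hqG] at hG hx
  obtain ⟨f, f1, f2, f3⟩ := exists_half hp hF
  obtain ⟨g, g1, g2, g3⟩ := exists_half hq hG
  have h4 := reindex_int (f1.add (g1.smul (-1))) (f2.add (g2.const_mul _))
  have h5 : Real.pi * x = ∫ z, (f z + ((-1 : ℤ) : ℝ) * g z) := by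
    rw [integral_add f2 (g2.const_mul _), integral_const_mul, f3, g3, hx]
    push_cast
    ring
  rw [h5]
  exact h4

end Pool.Agent.H216.PN
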