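import Mathlib

/-!
Project PN (helper216, MP_725b61_nt), part B: `π` times the real periods are exactly the integrals of
rational functions over the whole space. Statements of the lemmas.
-/

set_option autoImplicit false

namespace Pool.Agent.H216.PN

open MeasureTheory Polynomial

/-- partial fractions of a rational function without real poles -/
def S_PF : Prop :=
  ∀ (n : ℕ) (P Q : ℝ[X]), Q.natDegree = 2 * n → (∀ y : ℝ, 0 < Q.eval y) → P.degree < Q.degree →
    ∃ (α β a b : Fin n → ℝ) (m : Fin n → ℕ), (∀ j, 0 < β j) ∧ (∀ j, 1 ≤ m j) ∧ (∀ j, m j ≤ n) ∧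
      ∀ y : ℝ, P.eval y / Q.eval y =
        ∑ j, (a j * (y - α j) + b j) / ((y - α j) ^ 2 + β j ^ 2) ^ m j

/-- `∫ dy / (y ^ 2 + 1) ^ m = π kap m` -/
noncomputable def kap (m : ℕ) : ℝ := ((m - 1).centralBinom : ℝ) / 4 ^ (m - 1)

/-- the integral of a sum of partial fractions -/
def S_PI : Prop :=
  ∀ (n : ℕ) (α β a b : Fin n → ℝ) (m : Fin n → ℕ), (∀ j, 0 < β j) → (∀ j, 1 ≤ m j) →
    Integrable (fun y : ℝ => ∑ j, (a j * (y - α j) + b j) / ((y - α j) ^ 2 + β j ^ 2) ^ m j) →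
    ∫ y : ℝ, ∑ j, (a j * (y - α j) + b j) / ((y - α j) ^ 2 + β j ^ 2) ^ m j =
      Real.pi * ∑ j, b j * kap (m j) / β j ^ (2 * m j - 1)

end Pool.Agent.H216.PN
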