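import Pool.Agent.H216.PN.StmC
import Pool.Agent.H216.PN.StmB

/-!
The integral of a rational function over the line as a semialgebraic function of parameters.
-/

set_option autoImplicit false

namespace Pool.Agent.H216.PN

open MeasureTheory Pool.Agent.H581R2

theorem SAP_exists {ι : Type} {p : (ι → ℝ) → ℝ → Prop}
    (h : SAP (fun w : Option ι → ℝ => p (fun i => w (some i)) (w none))) :
    SAP (fun v => ∃ t, p v t) := SAP.exists_real h

theorem SAP_forall {ι : Type} {p : (ι → ℝ) → ℝ → Prop}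
    (h : SAP (fun w : Option ι → ℝ => p (fun i => w (some i)) (w none))) :
    SAP (fun v => ∀ t, p v t) := by
  have h1 := (SAP_exists (p := fun v t => ¬p v t) h.not).not
  exact h1.congr fun v => by push Not; rfl

theorem SAP_exists_vec (m : ℕ) : ∀ {ι : Type} {p : (ι → ℝ) → (Fin m → ℝ) → Prop},
    SAP (fun w : ι ⊕ Fin m → ℝ => p (fun i => w (Sum.inl i)) (fun j => w (Sum.inr j))) →
    SAP (fun v => ∃ c : Fin m → ℝ, p v c) := by
  induction m with
  | zero =>
    intro ι p h
    have h1 := SAP.preimage (φ := fun (v : ι → ℝ) => (Sum.elim v (fun j : Fin 0 => j.elim0) :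
      ι ⊕ Fin 0 → ℝ)) h (fun k => by
        rcases k with k | k
        · exact PF.coord k
        · exact k.elim0)
    refine h1.congr fun v => ?_
    constructor
    · rintro ⟨c, hc⟩
      have : c = fun j : Fin 0 => (Sum.elim v (fun j : Fin 0 => j.elim0) :
        ι ⊕ Fin 0 → ℝ) (Sum.inr j) := by
        funext j
        exact j.elim0
      rw [this] at hc
      exact hc
    · intro h2
      exact ⟨_, h2⟩
  | succ m ih =>
    intro ι p h
    have h1 : SAP (fun v : ι → ℝ => ∃ t, ∃ c : Fin m → ℝ, p v (Fin.cons t c)) := by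
      refine SAP_exists ?_
      refine ih ?_
      exact SAP.preimage (φ := fun (u : Option ι ⊕ Fin m → ℝ) => (Sum.elim
        (fun i => u (Sum.inl (some i))) (Fin.cons (u (Sum.inl none)) fun j => u (Sum.inr j)) :
        ι ⊕ Fin (m + 1) → ℝ)) h (fun k => by
          rcases k with k | k
          · exact PF.coord _
          · refine Fin.cases ?_ (fun j => ?_) k
            · exact PF.coord _
            · exact PF.coord _)
    refine h1.congr fun v => ?_
    constructor
    · rintro ⟨c, hc⟩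
      exact ⟨c 0, Fin.tail c, by rwa [Fin.cons_self_tail]⟩
    · rintro ⟨t, c, hc⟩
      exact ⟨_, hc⟩

theorem PF_prod {ι α : Type} (s : Finset α) {f : α → (ι → ℝ) → ℝ} (hf : ∀ a ∈ s, PF (f a)) :
    PF (fun v => ∏ a ∈ s, f a v) := by
  classical
  induction s using Finset.induction_on with
  | empty => simpa using PF.one
  | insert a s ha ih =>
    have : (fun v => ∏ b ∈ insert a s, f b v) = fun v => f a v * ∏ b ∈ s, f b v := by
      funext v; rw [Finset.prod_insert ha]
    rw [this]
    exact (hf a (by simp)).mul (ih fun b hb => hf b (by simp [hb]))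

/-- semialgebraic sets are measurable -/
theorem SA_measurable {ι : Type} [Fintype ι] {S : Set (ι → ℝ)} (hS : SA S) : MeasurableSet S := by
  classical
  obtain ⟨Q, hQ⟩ := hS.iff
  have h1 : ∀ q : MvPolynomial ι ℚ, Measurable fun v : ι → ℝ => (MvPolynomial.aeval v q : ℝ) := by
    intro q
    have h2 : (fun x : ι → ℝ => (MvPolynomial.aeval x q : ℝ)) =
        fun x => MvPolynomial.eval x (MvPolynomial.map (algebraMap ℚ ℝ) q) := by
      funext x
      rw [MvPolynomial.eval_map]
      rfl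
    rw [h2]
    exact (MvPolynomial.continuous_eval _).measurable
  have h4 : ∀ (q : MvPolynomial ι ℚ) (s : SignType),
      MeasurableSet {v : ι → ℝ | SignType.sign (MvPolynomial.aeval v q : ℝ) = s} := by
    intro q s
    have h5 : s = 0 ∨ s = 1 ∨ s = -1 := by
      cases s <;> decide
    rcases h5 with rfl | rfl | rfl
    · simp only [sign_eq_zero_iff]
      exact measurableSet_eq_fun (h1 q) measurable_const
    · simp only [sign_eq_one_iff]
      exact measurableSet_lt measurable_const (h1 q)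
    · simp only [sign_eq_neg_one_iff]
      exact measurableSet_lt (h1 q) measurable_const
  have h3 : S = ⋃ σ ∈ {σ : Q → SignType | ∃ w ∈ S, ∀ q : Q,
      SignType.sign (MvPolynomial.aeval w q.1 : ℝ) = σ q}, ⋂ q : Q,
        {v : ι → ℝ | SignType.sign (MvPolynomial.aeval v q.1 : ℝ) = σ q} := by
    ext v
    simp only [Set.mem_ofPred_eq, Set.mem_iUnion, Set.mem_iInter, exists_prop]
    constructor
    · exact fun h => ⟨fun q => SignType.sign (MvPolynomial.aeval v q.1 : ℝ),
        ⟨v, h, fun q => rfl⟩, fun q => rfl⟩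
    · rintro ⟨σ, ⟨w, hw, hwσ⟩, hv⟩
      refine (hQ w v fun q hq => ?_).1 hw
      rw [hwσ ⟨q, hq⟩, hv ⟨q, hq⟩]
  rw [h3]
  exact MeasurableSet.biUnion (Set.to_countable _) fun σ _ =>
    MeasurableSet.iInter fun q => h4 q.1 (σ q)

/-- the function `y ↦ (y - α) ^ 2 + β ^ 2` -/
noncomputable def qf (α β y : ℝ) : ℝ := (y - α) ^ 2 + β ^ 2

/-- `g` is `1 / π` times the sum of the integrals of the partial fractions with the data `c` (the
numbers `α`, `β`, `a`, `b`) and the exponents `m`; the sum is `F / G` at the parameters `x` -/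
def GrD {ι : Type} {n : ℕ} (F G : UP ι) (m : Fin n → Fin (n + 1)) (x : ι → ℝ) (g : ℝ)
    (c : Fin 4 → Fin n → ℝ) : Prop :=
  (∀ j, 0 < c 1 j) ∧ (∀ j, 1 ≤ (m j : ℕ)) ∧
    (∀ y : ℝ, (spec x F).eval y * ∏ j, qf (c 0 j) (c 1 j) y ^ (m j : ℕ) =
      (spec x G).eval y * ∑ j, (c 2 j * (y - c 0 j) + c 3 j) *
        ∏ i ∈ Finset.univ.erase j, qf (c 0 i) (c 1 i) y ^ (m i : ℕ)) ∧
    g * ∏ j, c 1 j ^ (2 * (m j : ℕ) - 1) =
      ∑ j, c 3 j * kap (m j) * ∏ i ∈ Finset.univ.erase j, c 1 i ^ (2 * (m i : ℕ) - 1)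

/-- the graph of the integral divided by `π` -/
def Gr {ι : Type} (n : ℕ) (F G : UP ι) (x : ι → ℝ) (g : ℝ) : Prop :=
  ∃ (m : Fin n → Fin (n + 1)), ∃ (c : Fin (4 * n) → ℝ),
    GrD F G m x g fun i j => c (finProdFinEquiv (i, j))

theorem PF_kap {ι : Type} (m : ℕ) : PF (fun _ : ι → ℝ => kap m) := by
  have h : (fun _ : ι → ℝ => kap m) = fun _ : ι → ℝ =>
      ((((m - 1).centralBinom : ℚ) / 4 ^ (m - 1) : ℚ) : ℝ) := by
    funext v
    unfold kap
    push_cast
    rfl
  rw [h]
  exact PF.const _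

theorem SAP_Gr {ι : Type} (n : ℕ) (F G : UP ι) :
    SAP (fun w : Option ι → ℝ => Gr n F G (fun i => w (some i)) (w none)) := by
  unfold Gr
  refine SAP.exists_fin fun m => ?_
  refine SAP_exists_vec (4 * n) ?_
  unfold GrD
  refine SAP.and ?_ (SAP.and (SAP.const _) (SAP.and ?_ ?_))
  · refine (SAP.forall_mem Finset.univ (p := fun j (w : Option ι ⊕ Fin (4 * n) → ℝ) =>
      0 < w (Sum.inr (finProdFinEquiv ((1 : Fin 4), j)))) fun j _ => ?_).congr fun v => by simp
    exact SAP.pos (PF.coord _)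
  · refine SAP_forall ?_
    have hx : ∀ i : ι, PF (fun u : Option (Option ι ⊕ Fin (4 * n)) → ℝ =>
        u (some (Sum.inl (some i)))) := fun i => PF.coord _
    have hy : PF (fun u : Option (Option ι ⊕ Fin (4 * n)) → ℝ => u none) := PF.coord _
    have hc : ∀ (i : Fin 4) (j : Fin n), PF (fun u : Option (Option ι ⊕ Fin (4 * n)) → ℝ =>
        u (some (Sum.inr (finProdFinEquiv (i, j))))) := fun i j => PF.coord _
    have hq : ∀ j : Fin n, PF (fun u : Option (Option ι ⊕ Fin (4 * n)) → ℝ =>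
        qf (u (some (Sum.inr (finProdFinEquiv ((0 : Fin 4), j)))))
          (u (some (Sum.inr (finProdFinEquiv ((1 : Fin 4), j))))) (u none) ^ (m j : ℕ)) := by
      intro j
      unfold qf
      exact (((hy.sub (hc 0 j)).pow 2).add ((hc 1 j).pow 2)).pow _
    refine SAP.eq ?_ ?_
    · exact (PF.spec_eval hx F hy).mul (PF_prod _ fun j _ => hq j)
    · refine (PF.spec_eval hx G hy).mul (PF.sum _ fun j _ => ?_)
      exact (((hc 2 j).mul (hy.sub (hc 0 j))).add (hc 3 j)).mul (PF_prod _ fun i _ => hq i)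
  · have hc : ∀ (i : Fin 4) (j : Fin n), PF (fun u : Option ι ⊕ Fin (4 * n) → ℝ =>
        u (Sum.inr (finProdFinEquiv (i, j)))) := fun i j => PF.coord _
    refine SAP.eq ?_ ?_
    · exact (PF.coord _).mul (PF_prod _ fun j _ => (hc 1 j).pow _)
    · exact PF.sum _ fun j _ => ((hc 3 j).mul (PF_kap _)).mul (PF_prod _ fun i _ => (hc 1 i).pow _)

end Pool.Agent.H216.PN
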