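import Pool.Agent.H216.PN.Prd

/-!
The volume of a region given by several inequalities as an alternating sum.
-/

set_option autoImplicit false

namespace Pool.Agent.H216.PN

open MeasureTheory MvPolynomial

section
variable {ι : Type} [Fintype ι] {k : ℕ}

theorem integrable_inv (K : ℕ) (t : ℝ) : Integrable (fun x : ι → ℝ => t / bv K x) := by
  have h1 : Integrable (fun x : ι → ℝ => ∏ i, (1 + x i ^ 2)⁻¹) :=
    Integrable.fintype_prod fun _ => integrable_inv_one_add_sq
  have h2 := h1.const_mul (t / K)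
  refine h2.congr (Filter.Eventually.of_forall fun x => ?_)
  simp only [bv, Finset.prod_inv_distrib]
  rw [div_mul_eq_mul_div, ← div_eq_mul_inv, div_div, mul_comm (∏ i, (1 + x i ^ 2)) (K : ℝ)]

theorem cw_bounds {K t : ℕ} (h2 : t + 1 ≤ K) (p : Fin k → MvPolynomial ι ℚ) (x : ι → ℝ) :
    0 ≤ cw K t p x ∧ cw K t p x ≤
      {x : ι → ℝ | ∀ j, 0 < (aeval x (p j) : ℝ)}.indicator (fun _ => (1 : ℝ)) x + t / bv K x := by
  have ht : (0 : ℝ) ≤ t := Nat.cast_nonneg t
  have hK : (t : ℝ) + 1 ≤ bv K x := by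
    refine le_trans ?_ (le_bv K _)
    exact_mod_cast h2
  have hB : 0 < bv K x := by linarith
  have hv0 : 0 ≤ t / bv K x := by positivity
  have hv1 : t / bv K x ≤ 1 := by
    rw [div_le_one hB]
    linarith
  have h4 : ∀ j, 0 ≤ (if 0 < (aeval x (p j) : ℝ) then 1 - t / bv K x else t / bv K x : ℝ) := by
    intro j
    split_ifs
    · linarith
    · exact hv0
  have h5 : ∀ j, (if 0 < (aeval x (p j) : ℝ) then 1 - t / bv K x else t / bv K x : ℝ) ≤ 1 := by
    intro j
    split_ifs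
    · linarith
    · exact hv1
  refine ⟨Finset.prod_nonneg fun j _ => h4 j, ?_⟩
  by_cases hx : ∀ j, 0 < (aeval x (p j) : ℝ)
  · rw [Set.indicator_of_mem (show x ∈ {x : ι → ℝ | ∀ j, 0 < (aeval x (p j) : ℝ)} from hx)]
    have : cw K t p x ≤ 1 := Finset.prod_le_one (fun j _ => h4 j) fun j _ => h5 j
    linarith
  · rw [Set.indicator_of_notMem (show x ∉ {x : ι → ℝ | ∀ j, 0 < (aeval x (p j) : ℝ)} from hx), zero_add]
    push Not at hx
    obtain ⟨j, hj⟩ := hx
    unfold cw
    rw [← Finset.mul_prod_erase Finset.univ _ (Finset.mem_univ j), if_neg (not_lt.2 hj)]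
    exact mul_le_of_le_one_right hv0 (Finset.prod_le_one (fun i _ => h4 i) fun i _ => h5 i)

theorem measurableSet_A (p : Fin k → MvPolynomial ι ℚ) :
    MeasurableSet {x : ι → ℝ | ∀ j, 0 < (aeval x (p j) : ℝ)} := by
  have h1 : {x : ι → ℝ | ∀ j, 0 < (aeval x (p j) : ℝ)} =
      ⋂ j, {x : ι → ℝ | 0 < (aeval x (p j) : ℝ)} := by
    ext x
    simp
  rw [h1]
  exact MeasurableSet.iInter fun j => measurableSet_lt measurable_const (measurable_aeval _)

theorem integrable_cw {K t : ℕ} (h2 : t + 1 ≤ K) (p : Fin k → MvPolynomial ι ℚ)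
    (hA : volume {x : ι → ℝ | ∀ j, 0 < (aeval x (p j) : ℝ)} ≠ ⊤) : Integrable (cw K t p) := by
  have h3 : Integrable (fun x : ι → ℝ =>
      {x : ι → ℝ | ∀ j, 0 < (aeval x (p j) : ℝ)}.indicator (fun _ => (1 : ℝ)) x + t / bv K x) := by
    refine Integrable.add ?_ (integrable_inv K t)
    rw [integrable_indicator_iff (measurableSet_A p)]
    exact integrableOn_const hA
  refine h3.mono' (measurable_cw K t p).aestronglyMeasurable (Filter.Eventually.of_forall fun x => ?_)
  obtain ⟨h4, h5⟩ := cw_bounds h2 p x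
  rw [Real.norm_eq_abs, abs_of_nonneg h4]
  exact h5

theorem main_id (hE : S_EXT) (p : Fin k → MvPolynomial ι ℚ)
    (hA : volume {x : ι → ℝ | ∀ j, 0 < (aeval x (p j) : ℝ)} ≠ ⊤) :
    (volume {x : ι → ℝ | ∀ j, 0 < (aeval x (p j) : ℝ)}).toReal =
      ∑ t ∈ Finset.range (k + 1), (-1 : ℝ) ^ t * ((k + 1).choose (t + 1) : ℝ) *
        (∫⁻ x : ι → ℝ, ENNReal.ofReal (cw (k + 2) (t + 1) p x)).toReal := by
  have h1 : ∀ t ∈ Finset.range (k + 1), (∫⁻ x : ι → ℝ, ENNReal.ofReal
      (cw (k + 2) (t + 1) p x)).toReal = ∫ x : ι → ℝ, cw (k + 2) (t + 1) p x := by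
    intro t ht
    rw [Finset.mem_range] at ht
    rw [integral_eq_lintegral_of_nonneg_ae
      (Filter.Eventually.of_forall fun x => (cw_bounds (by omega) p x).1)
      (measurable_cw _ _ _).aestronglyMeasurable]
  have h2 : ∀ x : ι → ℝ, ∑ t ∈ Finset.range (k + 1), (-1 : ℝ) ^ t *
      ((k + 1).choose (t + 1) : ℝ) * cw (k + 2) (t + 1) p x =
      {x : ι → ℝ | ∀ j, 0 < (aeval x (p j) : ℝ)}.indicator (fun _ => (1 : ℝ)) x := by
    intro x
    have h3 := hE k (fun j => 0 < (aeval x (p j) : ℝ)) (bv (k + 2) x)⁻¹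
    have h4 : ∏ j, (if 0 < (aeval x (p j) : ℝ) then (1 : ℝ) else 0) =
        {x : ι → ℝ | ∀ j, 0 < (aeval x (p j) : ℝ)}.indicator (fun _ => (1 : ℝ)) x := by
      by_cases hx : ∀ j, 0 < (aeval x (p j) : ℝ)
      · rw [Set.indicator_of_mem (show x ∈ {x : ι → ℝ | ∀ j, 0 < (aeval x (p j) : ℝ)} from hx)]
        exact Finset.prod_eq_one fun j _ => if_pos (hx j)
      · rw [Set.indicator_of_notMem (show x ∉ {x : ι → ℝ | ∀ j, 0 < (aeval x (p j) : ℝ)} from hx)]
        push Not at hx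
        obtain ⟨j, hj⟩ := hx
        exact Finset.prod_eq_zero (Finset.mem_univ j) (if_neg (not_lt.2 hj))
    rw [← h4, ← h3]
    refine Finset.sum_congr rfl fun t _ => ?_
    unfold cw
    congr 1
    refine Finset.prod_congr rfl fun j _ => ?_
    push_cast
    rw [div_eq_mul_inv]
  rw [Finset.sum_congr rfl fun t ht => by rw [h1 t ht], ← measureReal_def,
    ← integral_indicator_one (measurableSet_A p)]
  have h5 : ∫ x : ι → ℝ, {x : ι → ℝ | ∀ j, 0 < (aeval x (p j) : ℝ)}.indicator (1 : (ι → ℝ) → ℝ) x =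
      ∫ x : ι → ℝ, ∑ t ∈ Finset.range (k + 1), (-1 : ℝ) ^ t *
        ((k + 1).choose (t + 1) : ℝ) * cw (k + 2) (t + 1) p x := by
    refine integral_congr_ae (Filter.Eventually.of_forall fun x => ?_)
    exact (h2 x).symm
  rw [h5, integral_finsetSum]
  · exact Finset.sum_congr rfl fun t _ => integral_const_mul _ _
  · intro t ht
    rw [Finset.mem_range] at ht
    exact (integrable_cw (by omega) p hA).const_mul _

end

end Pool.Agent.H216.PN
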