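import Pool.Agent.H216.PN.Fwd
import Pool.Agent.H216.PN.Cn2

/-!
Products of periods.
-/

set_option autoImplicit false

namespace Pool.Agent.H216.PN

open MeasureTheory MvPolynomial Pool.Agent.H581R2

theorem SA_neg {n : ℕ} (F : MvPolynomial (Fin n) ℤ) :
    SA {z : Fin n → ℝ | (aeval z F : ℝ) < 0} := by
  refine SAP.lt ⟨map (Int.castRingHom ℚ) F, fun z => ?_⟩ PF.zero
  rw [← algebraMap_int_eq, aeval_map_algebraMap ℚ z F]

theorem vol_mul {n m : ℕ} (F : MvPolynomial (Fin n) ℤ) (G : MvPolynomial (Fin m) ℤ)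
    (hF : volume {z : Fin n → ℝ | (aeval z F : ℝ) < 0} ≠ ⊤)
    (hG : volume {z : Fin m → ℝ | (aeval z G : ℝ) < 0} ≠ ⊤) :
    (volume {z : Fin n → ℝ | (aeval z F : ℝ) < 0}).toReal *
      (volume {z : Fin m → ℝ | (aeval z G : ℝ) < 0}).toReal ∈
        AddSubgroup.closure Q54.KZ.vols := by
  have h1 := Q54.KZ.volume_sum_prod {z : Fin n → ℝ | (aeval z F : ℝ) < 0}
    {z : Fin m → ℝ | (aeval z G : ℝ) < 0}
  have h2 : SA {y : Fin n ⊕ Fin m → ℝ | (fun j => y (Sum.inl j)) ∈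
      {z : Fin n → ℝ | (aeval z F : ℝ) < 0} ∧ (fun j => y (Sum.inr j)) ∈
        {z : Fin m → ℝ | (aeval z G : ℝ) < 0}} := by
    refine SAP.and ?_ ?_
    · exact SA.preimage (φ := fun (y : Fin n ⊕ Fin m → ℝ) j => y (Sum.inl j)) (SA_neg F)
        fun k => PF.coord _
    · exact SA.preimage (φ := fun (y : Fin n ⊕ Fin m → ℝ) j => y (Sum.inr j)) (SA_neg G)
        fun k => PF.coord _
  rw [← ENNReal.toReal_mul, ← h1]
  refine SAV.t_SAV _ _ h2 ?_
  rw [h1]
  exact ENNReal.mul_ne_top hF hG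

/-- the real periods are closed under multiplication -/
theorem mul_mem {x y : ℝ} (hx : x ∈ AddSubgroup.closure Q54.KZ.vols)
    (hy : y ∈ AddSubgroup.closure Q54.KZ.vols) : x * y ∈ AddSubgroup.closure Q54.KZ.vols := by
  obtain ⟨n, F, G, hF, hG, hx⟩ := exists_two hx
  obtain ⟨m, F', G', hF', hG', hy⟩ := exists_two hy
  rw [hx, hy, sub_mul, mul_sub, mul_sub]
  exact AddSubgroup.sub_mem _
    (AddSubgroup.sub_mem _ (vol_mul F F' hF hF') (vol_mul F G' hF hG'))
    (AddSubgroup.sub_mem _ (vol_mul G F' hG hF') (vol_mul G G' hG hG'))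

/-- **The real periods and the integrals over the whole space.** -/
theorem whole_iff (x : ℝ) : Whole (Real.pi * x) ↔ x ∈ AddSubgroup.closure Q54.KZ.vols := by
  constructor
  · rintro ⟨n, P, Q, h1, h2, h3⟩
    obtain ⟨y, hy, h4⟩ := backward P Q h1 h2
    rw [← h3] at h4
    rwa [← mul_left_cancel₀ Real.pi_ne_zero h4]
  · exact forward

end Pool.Agent.H216.PN
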