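import Pool.Agent.H216.PN.Wt

/-!
The integral of the density over the variables `y` and `u`.
-/

set_option autoImplicit false

namespace Pool.Agent.H216.PN

open MeasureTheory MvPolynomial

theorem lintegral_prod_pi {k : ℕ} (f : Fin k → ℝ → ℝ) (h0 : ∀ j y, 0 ≤ f j y)
    (hm : ∀ j, Measurable (f j)) (hf : ∀ j, ∫⁻ y, ENNReal.ofReal (f j y) ≠ ⊤) :
    ∫⁻ y : Fin k → ℝ, ENNReal.ofReal (∏ j, f j (y j)) = ∏ j, ∫⁻ y, ENNReal.ofReal (f j y) := by
  have hi : ∀ j, Integrable (f j) := by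
    intro j
    refine ⟨(hm j).aestronglyMeasurable, ?_⟩
    rw [hasFiniteIntegral_iff_ofReal (Filter.Eventually.of_forall (h0 j))]
    exact lt_top_iff_ne_top.2 (hf j)
  have h1 : Integrable (fun y : Fin k → ℝ => ∏ j, f j (y j)) := Integrable.fintype_prod hi
  rw [← ofReal_integral_eq_lintegral_ofReal h1
    (Filter.Eventually.of_forall fun y => Finset.prod_nonneg fun j _ => h0 j _),
    integral_fintype_prod_volume_eq_prod f,
    ENNReal.ofReal_prod_of_nonneg fun j _ => integral_nonneg (h0 j)]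
  exact Finset.prod_congr rfl fun j _ => ofReal_integral_eq_lintegral_ofReal (hi j)
    (Filter.Eventually.of_forall (h0 j))

theorem gd_nonneg (B t p y : ℝ) : 0 ≤ gd B t p y := Real.sqrt_nonneg _

theorem measurable_gd (B t p : ℝ) : Measurable (gd B t p) := by
  unfold gd
  fun_prop

theorem lintegral_unit {g : ℝ → ENNReal} (hg : Measurable g) :
    ∫⁻ b : Unit → ℝ, g (b ()) = ∫⁻ u, g u := by
  have h1 := volume_preserving_funUnique Unit ℝ
  exact h1.lintegral_comp hg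

/-- the density with mean `s` -/
noncomputable def rho (s : ℤ) (u : ℝ) : ℝ := Real.sqrt (1 / (4 * ((u - s) ^ 2 + 1) ^ 3))

theorem measurable_rho (s : ℤ) : Measurable (rho s) := by
  unfold rho
  fun_prop

section
variable {ι : Type} [Fintype ι] {k : ℕ}

/-- the weight -/
noncomputable def cw (K t : ℕ) (p : Fin k → MvPolynomial ι ℚ) (x : ι → ℝ) : ℝ :=
  ∏ j, (if 0 < (aeval x (p j) : ℝ) then 1 - t / bv K x else t / bv K x)

theorem inner_y (hG : S_GAD) {K t : ℕ} (h1 : 1 ≤ t) (h2 : t + 1 ≤ K) (c : ℕ)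
    (p : Fin k → MvPolynomial ι ℚ) (x : ι → ℝ) (hx : ∀ j, (aeval x (p j) : ℝ) ≠ 0) :
    ∫⁻ y : Fin k → ℝ, ENNReal.ofReal (c * ∏ j, gd (bv K x) t (aeval x (p j)) (y j)) =
      c * ENNReal.ofReal (cw K t p x) := by
  have ht : (1 : ℝ) ≤ t := by exact_mod_cast h1
  have hK : (t : ℝ) + 1 ≤ bv K x := by
    refine le_trans ?_ (le_bv K _)
    exact_mod_cast h2
  have hB : 0 < bv K x := by linarith
  have h3 : ∀ j, ∫⁻ y, ENNReal.ofReal (gd (bv K x) t (aeval x (p j)) y) =
      ENNReal.ofReal (if 0 < (aeval x (p j) : ℝ) then 1 - t / bv K x else t / bv K x) :=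
    fun j => hG _ _ _ (by linarith) (by linarith) (hx j)
  have h4 : ∀ j, 0 ≤ (if 0 < (aeval x (p j) : ℝ) then 1 - t / bv K x else t / bv K x : ℝ) := by
    intro j
    split_ifs
    · rw [sub_nonneg, div_le_one hB]
      linarith
    · positivity
  have h5 : ∀ y : Fin k → ℝ, ENNReal.ofReal (c * ∏ j, gd (bv K x) t (aeval x (p j)) (y j)) =
      c * ENNReal.ofReal (∏ j, gd (bv K x) t (aeval x (p j)) (y j)) := by
    intro y
    rw [ENNReal.ofReal_mul (Nat.cast_nonneg c), ENNReal.ofReal_natCast]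
  rw [lintegral_congr h5, lintegral_const_mul', lintegral_prod_pi]
  · congr 1
    unfold cw
    rw [ENNReal.ofReal_prod_of_nonneg fun j _ => h4 j]
    exact Finset.prod_congr rfl fun j _ => h3 j
  · exact fun j y => gd_nonneg _ _ _ _
  · exact fun j => measurable_gd _ _ _
  · intro j
    rw [h3]
    exact ENNReal.ofReal_ne_top
  · exact ENNReal.natCast_ne_top c

theorem measurable_cw (K t : ℕ) (p : Fin k → MvPolynomial ι ℚ) : Measurable (cw K t p) := by
  unfold cw
  refine Finset.measurable_prod _ fun j _ => ?_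
  have hb : Measurable (bv K : (ι → ℝ) → ℝ) := by
    unfold bv
    fun_prop
  refine Measurable.ite (measurableSet_lt measurable_const (measurable_aeval _)) ?_ ?_
  · exact measurable_const.sub (measurable_const.div hb)
  · exact measurable_const.div hb

theorem measurable_G (K t c : ℕ) (p : Fin k → MvPolynomial ι ℚ) :
    Measurable fun a : ι ⊕ Fin k → ℝ => ((c : ℝ) * ∏ j, gd (bv K fun i => a (Sum.inl i)) t
      (aeval (fun i => a (Sum.inl i)) (p j)) (a (Sum.inr j))) := by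
  unfold gd bv
  have h1 : ∀ j, Measurable fun a : ι ⊕ Fin k → ℝ =>
      (aeval (fun i => a (Sum.inl i)) (p j) : ℝ) := fun j =>
    (measurable_aeval (p j)).comp (measurable_pi_lambda _ fun i => measurable_pi_apply _)
  refine measurable_const.mul (Finset.measurable_prod _ fun j _ => ?_)
  have h2 := h1 j
  fun_prop

theorem fam_int (hG : S_GAD) {K t : ℕ} (h1 : 1 ≤ t) (h2 : t + 1 ≤ K) (c : ℕ) (s : ℤ)
    (p : Fin k → MvPolynomial ι ℚ) (hp : ∀ j, p j ≠ 0) (g : ℝ → ENNReal) (hg : Measurable g) :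
    ∫⁻ w : Kap ι k → ℝ, g (w (Sum.inr ())) *
        ENNReal.ofReal (Real.sqrt ((aeval w (nn K t c p) : ℝ) / aeval w (dd K t s p))) =
      (∫⁻ u, g u * ENNReal.ofReal (rho s u)) * (c * ∫⁻ x, ENNReal.ofReal (cw K t p x)) := by
  have e1 : Measurable fun w : Kap ι k → ℝ => g (w (Sum.inr ())) *
        ENNReal.ofReal (Real.sqrt ((aeval w (nn K t c p) : ℝ) / aeval w (dd K t s p))) :=
    (hg.comp (measurable_pi_apply _)).mul
      (((measurable_aeval _).div (measurable_aeval _)).sqrt.ennreal_ofReal)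
  rw [Q54.KZ.lintegral_sum e1]
  have e2 : ∀ (a : ι ⊕ Fin k → ℝ) (b : Unit → ℝ),
      g ((Sum.elim a b : Kap ι k → ℝ) (Sum.inr ())) *
        ENNReal.ofReal (Real.sqrt ((aeval (Sum.elim a b : Kap ι k → ℝ) (nn K t c p) : ℝ) /
          aeval (Sum.elim a b : Kap ι k → ℝ) (dd K t s p))) =
      ENNReal.ofReal ((c : ℝ) * ∏ j, gd (bv K fun i => a (Sum.inl i)) t
        (aeval (fun i => a (Sum.inl i)) (p j)) (a (Sum.inr j))) *
        (g (b ()) * ENNReal.ofReal (rho s (b ()))) := by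
    intro a b
    rw [sqrt_nn_dd K t c s p _ h1 h2, ENNReal.ofReal_mul]
    · show g (b ()) * (ENNReal.ofReal ((c : ℝ) * ∏ j, gd (bv K fun i => a (Sum.inl i)) t
        (aeval (fun i => a (Sum.inl i)) (p j)) (a (Sum.inr j))) *
        ENNReal.ofReal (rho s (b ()))) = _
      ring
    · exact mul_nonneg (Nat.cast_nonneg c) (Finset.prod_nonneg fun j _ => gd_nonneg _ _ _ _)
  have e3 : ∀ a : ι ⊕ Fin k → ℝ, ∫⁻ b : Unit → ℝ,
      g ((Sum.elim a b : Kap ι k → ℝ) (Sum.inr ())) *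
        ENNReal.ofReal (Real.sqrt ((aeval (Sum.elim a b : Kap ι k → ℝ) (nn K t c p) : ℝ) /
          aeval (Sum.elim a b : Kap ι k → ℝ) (dd K t s p))) =
      ENNReal.ofReal ((c : ℝ) * ∏ j, gd (bv K fun i => a (Sum.inl i)) t
        (aeval (fun i => a (Sum.inl i)) (p j)) (a (Sum.inr j))) *
        ∫⁻ u, g u * ENNReal.ofReal (rho s u) := by
    intro a
    rw [lintegral_congr (e2 a), lintegral_const_mul' _ _ ENNReal.ofReal_ne_top,
      lintegral_unit (g := fun u => g u * ENNReal.ofReal (rho s u))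
        (hg.mul (measurable_rho s).ennreal_ofReal)]
  rw [lintegral_congr e3, lintegral_mul_const _ (measurable_G K t c p).ennreal_ofReal, mul_comm]
  congr 1
  rw [Q54.KZ.lintegral_sum (measurable_G K t c p).ennreal_ofReal]
  have e4 : ∀ᵐ x : ι → ℝ, ∀ j, (aeval x (p j) : ℝ) ≠ 0 :=
    ae_all_iff.2 fun j => Q54.KZ.ae_ne_zero (hp j)
  have e5 : ∀ᵐ x : ι → ℝ, ∫⁻ y : Fin k → ℝ, ENNReal.ofReal ((c : ℝ) * ∏ j,
      gd (bv K fun i => (Sum.elim x y : ι ⊕ Fin k → ℝ) (Sum.inl i)) t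
        (aeval (fun i => (Sum.elim x y : ι ⊕ Fin k → ℝ) (Sum.inl i)) (p j))
        ((Sum.elim x y : ι ⊕ Fin k → ℝ) (Sum.inr j))) = c * ENNReal.ofReal (cw K t p x) := by
    filter_upwards [e4] with x hx
    exact inner_y hG h1 h2 c p x hx
  rw [lintegral_congr_ae e5, lintegral_const_mul' _ _ (ENNReal.natCast_ne_top c)]

end

end Pool.Agent.H216.PN
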