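import Pool.Agent.H216.PN.Main

/-!
The region given by one polynomial, and its moments.
-/

set_option autoImplicit false

namespace Pool.Agent.H216.PN

open MeasureTheory MvPolynomial

/-- integer coefficients -/
theorem exists_int {σ : Type} (F : MvPolynomial σ ℚ) : ∃ (d : ℕ) (G : MvPolynomial σ ℤ), 0 < d ∧
    ∀ z : σ → ℝ, (aeval z G : ℝ) = d * aeval z F := by
  induction F using MvPolynomial.induction_on with
  | C a =>
    refine ⟨a.den, C a.num, a.den_pos, fun z => ?_⟩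
    rw [aeval_C, aeval_C]
    have h1 : (a.den : ℚ) * a = a.num := by
      rw [mul_comm]
      exact Rat.mul_den_eq_num a
    have h2 : ((a.den : ℚ) : ℝ) * (a : ℝ) = ((a.num : ℚ) : ℝ) := by
      rw [← h1]
      push_cast
      ring
    simp only [algebraMap_int_eq, eq_intCast, eq_ratCast]
    push_cast at h2
    exact h2.symm
  | add p q hp hq =>
    obtain ⟨d, G, hd, h1⟩ := hp
    obtain ⟨e, H, he, h2⟩ := hq
    refine ⟨d * e, (e : MvPolynomial σ ℤ) * G + (d : MvPolynomial σ ℤ) * H, Nat.mul_pos hd he,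
      fun z => ?_⟩
    rw [map_add, map_mul, map_mul, h1, h2, map_natCast, map_natCast, map_add]
    push_cast
    ring
  | mul_X p i hp =>
    obtain ⟨d, G, hd, h1⟩ := hp
    refine ⟨d, G * X i, hd, fun z => ?_⟩
    rw [map_mul, h1, map_mul, aeval_X, aeval_X]
    ring

theorem exists_int_neg {σ : Type} (F : MvPolynomial σ ℚ) : ∃ G : MvPolynomial σ ℤ,
    {z : σ → ℝ | (aeval z G : ℝ) < 0} = {z : σ → ℝ | (aeval z F : ℝ) < 0} := by
  obtain ⟨d, G, hd, h⟩ := exists_int F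
  refine ⟨G, ?_⟩
  ext z
  simp only [Set.mem_ofPred_eq]
  rw [h]
  have hd' : (0 : ℝ) < d := by exact_mod_cast hd
  constructor
  · intro h1
    by_contra h2
    push Not at h2
    have := mul_nonneg hd'.le h2
    linarith
  · intro h1
    exact mul_neg_of_pos_of_neg hd' h1

/-- reindexing -/
theorem reindex {κ : Type} [Fintype κ] {n : ℕ} (e : κ ≃ Fin (n + 1)) {i : κ} (he : e i = 0)
    (F : MvPolynomial κ ℚ) (g : ℝ → ENNReal) :
    ∫⁻ z in {z : Fin (n + 1) → ℝ | (aeval z (rename e F) : ℝ) < 0}, g (z 0) =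
      ∫⁻ w in {w : κ → ℝ | (aeval w F : ℝ) < 0}, g (w i) := by
  have h7 := volume_preserving_arrowCongr' e (MeasurableEquiv.refl ℝ) (MeasurePreserving.id volume)
  have h8 := h7.setLIntegral_comp_preimage_emb
    (MeasurableEquiv.arrowCongr' e (MeasurableEquiv.refl ℝ)).measurableEmbedding
    (fun z => g (z 0)) {z : Fin (n + 1) → ℝ | (aeval z (rename e F) : ℝ) < 0}
  have h9 : (MeasurableEquiv.arrowCongr' e (MeasurableEquiv.refl ℝ)) ⁻¹'
      {z : Fin (n + 1) → ℝ | (aeval z (rename e F) : ℝ) < 0} =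
      {w : κ → ℝ | (aeval w F : ℝ) < 0} := by
    ext z
    have h10 : (aeval (fun j => z (e.symm j)) (rename e F) : ℝ) = aeval z F := by
      rw [aeval_rename]
      congr 2
      funext j
      simp
    change (aeval (fun j => z (e.symm j)) (rename e F) : ℝ) < 0 ↔ (aeval z F : ℝ) < 0
    rw [h10]
  rw [h9] at h8
  rw [← h8]
  refine lintegral_congr fun z => ?_
  have h10 : (MeasurableEquiv.arrowCongr' e (MeasurableEquiv.refl ℝ)) z 0 = z i := by
    rw [← he]
    change z (e.symm (e _)) = _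
    rw [Equiv.symm_apply_apply]
  rw [h10]

section
variable {ι τ : Type} [Fintype ι] [Fintype τ] {k n : ℕ}

/-- **The region of a family.** -/
theorem region (hS : S_SLB) (hG : S_GAD) (e : Kap ι k ⊕ Unit ≃ Fin (n + 1))
    (he : e (Sum.inl (Sum.inr ())) = 0) (K : ℕ) (t c : τ → ℕ) (s : τ → ℤ)
    (P : τ → Fin k → MvPolynomial ι ℚ) (h1 : ∀ i, 1 ≤ t i) (h2 : ∀ i, t i + 1 ≤ K)
    (hP : ∀ i j, P i j ≠ 0) :
    ∃ F : MvPolynomial (Fin (n + 1)) ℤ, ∀ g : ℝ → ENNReal, Measurable g →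
      ∫⁻ z in {z : Fin (n + 1) → ℝ | (aeval z F : ℝ) < 0}, g (z 0) =
        ∑ i, (∫⁻ u, g u * ENNReal.ofReal (rho (s i) u)) *
          (c i * ∫⁻ x : ι → ℝ, ENNReal.ofReal (cw K (t i) (P i) x)) := by
  let f : τ → ℕ := fun i => (Fintype.equivFin τ i : ℕ)
  have hf : Function.Injective f := fun a b hab =>
    (Fintype.equivFin τ).injective (Fin.ext hab)
  let F := slabs f (fun i => nn K (t i) (c i) (P i)) (fun i => dd K (t i) (s i) (P i))
  obtain ⟨G, hGF⟩ := exists_int_neg (rename e F)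
  refine ⟨G, fun g hg => ?_⟩
  rw [hGF, reindex e he F g]
  have h3 := sum_slabs hS hf (fun i => nn K (t i) (c i) (P i)) (fun i => dd K (t i) (s i) (P i))
    (fun i x => nn_nonneg _ _ _ _ x) (fun i x => one_le_dd (h1 i) (h2 i) _ _ x)
    (fun x => g (x (Sum.inr ()))) (hg.comp (measurable_pi_apply _))
  refine h3.trans (Finset.sum_congr rfl fun i _ => ?_)
  exact fam_int hG (h1 i) (h2 i) (c i) (s i) (P i) (hP i) g hg

end

section
variable {τ : Type} [Fintype τ]

theorem moment (hM : S_MOM) {n : ℕ} {R : Set (Fin (n + 1) → ℝ)}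
    {s : τ → ℤ} {m : τ → ENNReal} (hm : ∀ i, m i ≠ ⊤)
    (hR : ∀ g : ℝ → ENNReal, Measurable g → ∫⁻ z in R, g (z 0) =
      ∑ i, (∫⁻ u, g u * ENNReal.ofReal (rho (s i) u)) * m i) :
    IntegrableOn (fun z : Fin (n + 1) → ℝ => z 0) R ∧
      ∫ z in R, z 0 = ∑ i, (s i : ℝ) * (m i).toReal := by
  have hi : ∀ i, Integrable (fun u : ℝ => u * rho (s i) u) := fun i => (hM (s i)).2.1
  have hr : ∀ i u, 0 ≤ rho (s i) u := fun i u => Real.sqrt_nonneg _
  have h1 : ∀ i, ∫⁻ u, ‖u‖ₑ * ENNReal.ofReal (rho (s i) u) ≠ ⊤ := by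
    intro i
    have h2 := (hi i).2
    rw [HasFiniteIntegral] at h2
    have h3 : ∀ u, ‖u * rho (s i) u‖ₑ = ‖u‖ₑ * ENNReal.ofReal (rho (s i) u) := by
      intro u
      rw [enorm_mul, Real.enorm_of_nonneg (hr i u)]
    rw [lintegral_congr h3] at h2
    exact h2.ne
  have hint : IntegrableOn (fun z : Fin (n + 1) → ℝ => z 0) R := by
    refine ⟨(measurable_pi_apply 0).aestronglyMeasurable, ?_⟩
    rw [HasFiniteIntegral, hR (fun u => ‖u‖ₑ) (by fun_prop)]
    exact ENNReal.sum_lt_top.2 fun i _ =>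
      ENNReal.mul_lt_top (lt_top_iff_ne_top.2 (h1 i)) (lt_top_iff_ne_top.2 (hm i))
  refine ⟨hint, ?_⟩
  have h4 : ∀ i, ∫⁻ u, ENNReal.ofReal u * ENNReal.ofReal (rho (s i) u) ≠ ⊤ := by
    intro i
    refine ne_top_of_le_ne_top (h1 i) (lintegral_mono fun u => ?_)
    gcongr
    exact Real.ofReal_le_enorm u
  have h5 : ∀ i, ∫⁻ u, ENNReal.ofReal (-u) * ENNReal.ofReal (rho (s i) u) ≠ ⊤ := by
    intro i
    refine ne_top_of_le_ne_top (h1 i) (lintegral_mono fun u => ?_)
    gcongr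
    exact (Real.ofReal_le_enorm (-u)).trans (le_of_eq (enorm_neg u))
  rw [integral_eq_lintegral_pos_part_sub_lintegral_neg_part hint,
    hR ENNReal.ofReal ENNReal.measurable_ofReal, hR (fun u => ENNReal.ofReal (-u)) (by fun_prop),
    ENNReal.toReal_sum fun i _ => ENNReal.mul_ne_top (h4 i) (hm i),
    ENNReal.toReal_sum fun i _ => ENNReal.mul_ne_top (h5 i) (hm i), ← Finset.sum_sub_distrib]
  refine Finset.sum_congr rfl fun i _ => ?_
  rw [ENNReal.toReal_mul, ENNReal.toReal_mul, ← sub_mul]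
  congr 1
  have h6 := (hM (s i)).2.2
  have h7 := integral_eq_lintegral_pos_part_sub_lintegral_neg_part (hi i)
  have h8 : ∀ u, ENNReal.ofReal (u * rho (s i) u) =
      ENNReal.ofReal u * ENNReal.ofReal (rho (s i) u) := fun u => ENNReal.ofReal_mul' (hr i u)
  have h9 : ∀ u, ENNReal.ofReal (-(u * rho (s i) u)) =
      ENNReal.ofReal (-u) * ENNReal.ofReal (rho (s i) u) := fun u => by
    rw [← neg_mul]
    exact ENNReal.ofReal_mul' (hr i u)
  rw [lintegral_congr h8, lintegral_congr h9] at h7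
  rw [← h7]
  exact h6

end

end Pool.Agent.H216.PN
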