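import Pool.Agent.H216.PN.Zin
import Pool.Agent.H216.PN.Reg
import Pool.Agent.H216.PN.GAD
import Pool.Agent.H216.PN.EXT

/-!
Rational functions without poles, and the volume of a region given by one polynomial.
-/

set_option autoImplicit false

namespace Pool.Agent.H216.PN

open MeasureTheory MvPolynomial

section
variable {κ : Type}

/-- rational functions with positive denominators -/
def IsRat (f : (κ → ℝ) → ℝ) : Prop :=
  ∃ P Q : MvPolynomial κ ℚ, (∀ z : κ → ℝ, 0 < (aeval z Q : ℝ)) ∧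
    ∀ z : κ → ℝ, f z = (aeval z P : ℝ) / aeval z Q

theorem IsRat.add {f g : (κ → ℝ) → ℝ} (hf : IsRat f) (hg : IsRat g) :
    IsRat fun z => f z + g z := by
  obtain ⟨P, Q, h1, h2⟩ := hf
  obtain ⟨P', Q', h3, h4⟩ := hg
  refine ⟨P * Q' + P' * Q, Q * Q', fun z => ?_, fun z => ?_⟩
  · rw [map_mul]
    exact mul_pos (h1 z) (h3 z)
  · beta_reduce
    rw [h2, h4, map_add, map_mul, map_mul, map_mul, div_add_div _ _ (h1 z).ne' (h3 z).ne']
    ring

theorem IsRat.smul {f : (κ → ℝ) → ℝ} (hf : IsRat f) (c : ℤ) : IsRat fun z => (c : ℝ) * f z := by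
  obtain ⟨P, Q, h1, h2⟩ := hf
  refine ⟨(c : MvPolynomial κ ℚ) * P, Q, h1, fun z => ?_⟩
  beta_reduce
  rw [h2, map_mul, map_intCast, mul_div_assoc]

theorem IsRat.int {f : (κ → ℝ) → ℝ} (hf : IsRat f) :
    ∃ P Q : MvPolynomial κ ℤ, (∀ z : κ → ℝ, 0 < (aeval z Q : ℝ)) ∧
      ∀ z : κ → ℝ, f z = (aeval z P : ℝ) / aeval z Q := by
  obtain ⟨P, Q, h1, h2⟩ := hf
  obtain ⟨d, P', hd, h3⟩ := exists_int P
  obtain ⟨e, Q', he, h4⟩ := exists_int Q
  have hd' : (0 : ℝ) < d := by exact_mod_cast hd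
  have he' : (0 : ℝ) < e := by exact_mod_cast he
  refine ⟨(e : MvPolynomial κ ℤ) * P', (d : MvPolynomial κ ℤ) * Q', fun z => ?_, fun z => ?_⟩
  · rw [map_mul, map_natCast, h4]
    exact mul_pos hd' (mul_pos he' (h1 z))
  · rw [h2, map_mul, map_mul, map_natCast, map_natCast, h3, h4]
    have := (h1 z).ne'
    field_simp

end

section
variable {ι : Type} [Fintype ι]

/-- the coordinates `x`, `y`, `z` -/
abbrev Lam (ι : Type) : Type := (ι ⊕ Unit) ⊕ Unit

/-- the integrand -/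
noncomputable def fr (K t : ℕ) (p : MvPolynomial ι ℚ) (w : Lam ι → ℝ) : ℝ :=
  gr (bv K fun i => w (Sum.inl (Sum.inl i))) t (aeval (fun i => w (Sum.inl (Sum.inl i))) p)
    (w (Sum.inl (Sum.inr ()))) (w (Sum.inr ()))

/-- the weight as a polynomial -/
noncomputable def bq (ι : Type) [Fintype ι] (K : ℕ) : MvPolynomial (Lam ι) ℚ :=
  (K : MvPolynomial (Lam ι) ℚ) * ∏ i : ι, (1 + X (Sum.inl (Sum.inl i)) ^ 2)

/-- the polynomial -/
noncomputable def pq (p : MvPolynomial ι ℚ) : MvPolynomial (Lam ι) ℚ :=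
  rename (fun i => Sum.inl (Sum.inl i)) p

theorem isRat_fr {K t : ℕ} (h1 : 1 ≤ t) (h2 : t + 1 ≤ K) (p : MvPolynomial ι ℚ) :
    IsRat (fr K t p) := by
  have ht : (1 : ℝ) ≤ t := by exact_mod_cast h1
  have eb : ∀ w : Lam ι → ℝ, (aeval w (bq ι K) : ℝ) = bv K fun i => w (Sum.inl (Sum.inl i)) := by
    intro w
    unfold bq bv
    simp only [map_mul, map_natCast, map_prod, map_add, map_one, map_pow, aeval_X]
  have ep : ∀ w : Lam ι → ℝ, (aeval w (pq p) : ℝ) = aeval (fun i => w (Sum.inl (Sum.inl i))) p := by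
    intro w
    unfold pq
    rw [aeval_rename]
    rfl
  let Y : MvPolynomial (Lam ι) ℚ := X (Sum.inl (Sum.inr ()))
  let Z : MvPolynomial (Lam ι) ℚ := X (Sum.inr ())
  let T : MvPolynomial (Lam ι) ℚ := (t : MvPolynomial (Lam ι) ℚ)
  refine ⟨4 * T * (bq ι K - T) * (Y * pq p) ^ 2,
    ((Y * pq p) ^ 2 * Z ^ 2 + ((Y ^ 2 * pq p) ^ 2 - 2 * (bq ι K - 2 * T) * (Y ^ 2 * pq p) +
      bq ι K ^ 2)) ^ 2, fun w => ?_, fun w => ?_⟩
  · have hK : (t : ℝ) + 1 ≤ bv K (fun i => w (Sum.inl (Sum.inl i))) := by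
      refine le_trans ?_ (le_bv K _)
      exact_mod_cast h2
    simp only [Y, Z, T, map_mul, map_natCast, map_sub, map_add, map_pow, aeval_X, eb, ep,
      map_ofNat]
    have hq := q_ge (w := w (Sum.inl (Sum.inr ())) ^ 2 *
      aeval (fun i => w (Sum.inl (Sum.inl i))) p) ht hK
    have h3 : 0 ≤ (w (Sum.inl (Sum.inr ())) * aeval (fun i => w (Sum.inl (Sum.inl i))) p) ^ 2 *
      w (Sum.inr ()) ^ 2 := by positivity
    exact pow_pos (by linarith) 2
  · unfold fr gr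
    simp only [Y, Z, T, map_mul, map_natCast, map_sub, map_add, map_pow, aeval_X, eb, ep,
      map_ofNat]

theorem fr_nonneg {K t : ℕ} (h2 : t + 1 ≤ K) (p : MvPolynomial ι ℚ) (w : Lam ι → ℝ) :
    0 ≤ fr K t p w := by
  have hK : (t : ℝ) + 1 ≤ bv K (fun i => w (Sum.inl (Sum.inl i))) := by
    refine le_trans ?_ (le_bv K _)
    exact_mod_cast h2
  unfold fr gr
  have h3 : 0 ≤ bv K (fun i => w (Sum.inl (Sum.inl i))) - t := by linarith
  positivity

theorem measurable_fr (K t : ℕ) (p : MvPolynomial ι ℚ) : Measurable (fr K t p) := by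
  unfold fr gr bv
  have h1 : Measurable fun a : Lam ι → ℝ => (aeval (fun i => a (Sum.inl (Sum.inl i))) p : ℝ) :=
    (measurable_aeval p).comp (measurable_pi_lambda _ fun i => measurable_pi_apply _)
  fun_prop

theorem measurable_gr_z (B t p y : ℝ) : Measurable (gr B t p y) := by
  unfold gr
  fun_prop

theorem lintegral_fr {K t : ℕ} (h1 : 1 ≤ t) (h2 : t + 1 ≤ K) {p : MvPolynomial ι ℚ} (hp : p ≠ 0) :
    ∫⁻ w : Lam ι → ℝ, ENNReal.ofReal (fr K t p w) =
      ENNReal.ofReal Real.pi * ∫⁻ x : ι → ℝ, ENNReal.ofReal (cw K t (fun _ : Fin 1 => p) x) := by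
  have ht : (1 : ℝ) ≤ t := by exact_mod_cast h1
  rw [Q54.KZ.lintegral_sum (measurable_fr K t p).ennreal_ofReal]
  have hm : Measurable fun a : ι ⊕ Unit → ℝ =>
      ∫⁻ b : Unit → ℝ, ENNReal.ofReal (fr K t p (Sum.elim a b)) := by
    have h3 : Measurable fun q : (ι ⊕ Unit → ℝ) × (Unit → ℝ) =>
        ENNReal.ofReal (fr K t p (Sum.elim q.1 q.2)) :=
      ((measurable_fr K t p).comp (Q54.KZ.measurable_elim measurable_fst measurable_snd)).ennreal_ofReal
    exact h3.lintegral_prod_right'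
  rw [Q54.KZ.lintegral_sum hm]
  have e4 : ∀ᵐ x : ι → ℝ, (aeval x p : ℝ) ≠ 0 := Q54.KZ.ae_ne_zero hp
  have e5 : ∀ᵐ x : ι → ℝ, ∫⁻ c : Unit → ℝ, ∫⁻ b : Unit → ℝ,
      ENNReal.ofReal (fr K t p (Sum.elim (Sum.elim x c) b)) =
      ENNReal.ofReal Real.pi * ENNReal.ofReal (cw K t (fun _ : Fin 1 => p) x) := by
    filter_upwards [e4] with x hx
    have hK : (t : ℝ) + 1 ≤ bv K x := by
      refine le_trans ?_ (le_bv K _)
      exact_mod_cast h2
    have e6 : ∀ (c b : Unit → ℝ), fr K t p (Sum.elim (Sum.elim x c) b) =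
        gr (bv K x) t (aeval x p) (c ()) (b ()) := fun c b => rfl
    have e7 : ∀ c : Unit → ℝ, ∫⁻ b : Unit → ℝ,
        ENNReal.ofReal (fr K t p (Sum.elim (Sum.elim x c) b)) =
        (fun y => ∫⁻ z, ENNReal.ofReal (gr (bv K x) t (aeval x p) y z)) (c ()) := by
      intro c
      simp only [e6]
      exact lintegral_unit (g := fun z => ENNReal.ofReal (gr (bv K x) t (aeval x p) (c ()) z))
        (measurable_gr_z _ _ _ _).ennreal_ofReal
    have hm2 : Measurable fun y => ∫⁻ z, ENNReal.ofReal (gr (bv K x) t (aeval x p) y z) := by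
      have h3 : Measurable fun q : ℝ × ℝ =>
          ENNReal.ofReal (gr (bv K x) t (aeval x p) q.1 q.2) := by
        unfold gr
        fun_prop
      exact h3.lintegral_prod_right'
    rw [lintegral_congr e7, lintegral_unit hm2]
    have e8 : ∀ᵐ y : ℝ, ∫⁻ z, ENNReal.ofReal (gr (bv K x) t (aeval x p) y z) =
        ENNReal.ofReal Real.pi * ENNReal.ofReal (gd (bv K x) t (aeval x p) y) := by
      have h3 : ∀ᵐ y : ℝ, y ≠ 0 := by
        have : ({0} : Set ℝ)ᶜ ∈ ae volume := compl_mem_ae_iff.2 (by simp)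
        exact this
      filter_upwards [h3] with y hy
      rw [gr_int ht hK hx hy, ENNReal.ofReal_mul Real.pi_pos.le]
    rw [lintegral_congr_ae e8, lintegral_const_mul' _ _ ENNReal.ofReal_ne_top,
      GAD.t_GAD _ _ _ (by linarith) (by linarith) hx]
    congr 2
    unfold cw
    rw [Fin.prod_univ_one]
  rw [lintegral_congr_ae e5, lintegral_const_mul' _ _ ENNReal.ofReal_ne_top]

/-- the volume of the region given by one polynomial -/
theorem exists_half {p : MvPolynomial ι ℚ} (hp : p ≠ 0)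
    (hA : volume {x : ι → ℝ | ∀ _j : Fin 1, 0 < (aeval x p : ℝ)} ≠ ⊤) :
    ∃ f : (Lam ι → ℝ) → ℝ, IsRat f ∧ Integrable f ∧
      ∫ w, f w = Real.pi * (volume {x : ι → ℝ | ∀ _j : Fin 1, 0 < (aeval x p : ℝ)}).toReal := by
  have hI : ∀ t : ℕ, 1 ≤ t → t + 1 ≤ 3 → Integrable (fr 3 t p) ∧ ∫ w, fr 3 t p w =
      Real.pi * (∫⁻ x : ι → ℝ, ENNReal.ofReal (cw 3 t (fun _ : Fin 1 => p) x)).toReal := by
    intro t h1 h2
    have h3 := lintegral_fr h1 h2 hp
    have h4 := (integrable_cw h2 (fun _ : Fin 1 => p) hA).lintegral_lt_top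
    have h5 : Integrable (fr 3 t p) := by
      refine ⟨(measurable_fr _ _ _).aestronglyMeasurable, ?_⟩
      rw [hasFiniteIntegral_iff_ofReal (Filter.Eventually.of_forall fun w => fr_nonneg h2 p w), h3]
      exact ENNReal.mul_lt_top ENNReal.ofReal_lt_top h4
    refine ⟨h5, ?_⟩
    rw [integral_eq_lintegral_of_nonneg_ae
      (Filter.Eventually.of_forall fun w => fr_nonneg h2 p w)
      (measurable_fr _ _ _).aestronglyMeasurable, h3, ENNReal.toReal_mul,
      ENNReal.toReal_ofReal Real.pi_pos.le]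
  obtain ⟨i1, j1⟩ := hI 1 (by norm_num) (by norm_num)
  obtain ⟨i2, j2⟩ := hI 2 (by norm_num) (by norm_num)
  refine ⟨fun w => ((2 : ℤ) : ℝ) * fr 3 1 p w + ((-1 : ℤ) : ℝ) * fr 3 2 p w,
    ((isRat_fr (by norm_num) (by norm_num) p).smul 2).add
      ((isRat_fr (by norm_num) (by norm_num) p).smul (-1)),
    (i1.const_mul _).add (i2.const_mul _), ?_⟩
  rw [integral_add (i1.const_mul _) (i2.const_mul _), integral_const_mul, integral_const_mul, j1,
    j2, main_id EXT.t_EXT (fun _ : Fin 1 => p) hA, Finset.sum_range_succ, Finset.sum_range_one]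
  norm_num
  ring

end

end Pool.Agent.H216.PN
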