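import Mathlib

/-!
Project PN (helper216, MP_725b61_nt): every real period is a first moment of a region given by one
polynomial inequality. Statements of the analytic lemmas.
-/

set_option autoImplicit false

namespace Pool.Agent.H216.PN

open MeasureTheory

/-- the density of the gadget -/
noncomputable def gd (B t p y : ℝ) : ℝ :=
  Real.sqrt ((2 * t * (B - t) * y * p) ^ 2 /
    ((y ^ 2 * p) ^ 2 - 2 * (B - 2 * t) * (y ^ 2 * p) + B ^ 2) ^ 3)

/-- the integral of the density of the gadget -/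
def S_GAD : Prop :=
  ∀ B t p : ℝ, 0 < t → t < B → p ≠ 0 →
    ∫⁻ y : ℝ, ENNReal.ofReal (gd B t p y) =
      ENNReal.ofReal (if 0 < p then 1 - t / B else t / B)

/-- the length of the union of disjoint intervals -/
def S_SLB : Prop :=
  ∀ (τ : Type) [Fintype τ] (N D : τ → ℝ) (e : τ → ℕ), Function.Injective e →
    (∀ i, 0 ≤ N i) → (∀ i, 1 ≤ D i) →
    volume {z : ℝ | ∏ i, (4 * (z - e i * (2 + ∑ j, N j)) ^ 2 * D i - N i) < 0} =
      ∑ i, ENNReal.ofReal (Real.sqrt (N i / D i))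

/-- extrapolation to `0` of a polynomial of degree at most `k` -/
def S_EXT : Prop :=
  ∀ (k : ℕ) (P : Fin k → Prop) [∀ j, Decidable (P j)] (v : ℝ),
    ∑ t ∈ Finset.range (k + 1), (-1 : ℝ) ^ t * ((k + 1).choose (t + 1) : ℝ) *
      ∏ j, (if P j then 1 - ((t : ℝ) + 1) * v else ((t : ℝ) + 1) * v) =
      ∏ j, (if P j then (1 : ℝ) else 0)

/-- a density with mean `s` -/
def S_MOM : Prop :=
  ∀ s : ℝ,
    (∫⁻ u : ℝ, ENNReal.ofReal (Real.sqrt (1 / (4 * ((u - s) ^ 2 + 1) ^ 3))) = 1) ∧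
    Integrable (fun u : ℝ => u * Real.sqrt (1 / (4 * ((u - s) ^ 2 + 1) ^ 3))) ∧
    ∫ u : ℝ, u * Real.sqrt (1 / (4 * ((u - s) ^ 2 + 1) ^ 3)) = s

end Pool.Agent.H216.PN
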