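import Mathlib
import Pool.Graph.R_pool_sql_team_seeded_3997aac3.Q54.KZ.Mmt
import Pool.Graph.R_seed8.H581R2.QE

/-!
Project PN (helper216, MP_725b61_nt), part B, further lemmas.
-/

set_option autoImplicit false

namespace Pool.Agent.H216.PN

open MeasureTheory Polynomial

/-- finite volumes of semialgebraic sets are periods -/
def S_SAV : Prop :=
  ∀ (ι : Type) [Fintype ι] (S : Set (ι → ℝ)), Pool.Agent.H581R2.SA S → volume S ≠ ⊤ →
    (volume S).toReal ∈ AddSubgroup.closure Q54.KZ.vols

/-- the degree of an integrable rational function -/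
def S_DEG : Prop :=
  ∀ P Q : ℝ[X], (∀ y : ℝ, 0 < Q.eval y) →
    Integrable (fun y : ℝ => P.eval y / Q.eval y) → P.degree < Q.degree

end Pool.Agent.H216.PN
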