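import Pool.Agent.H216.PN.Sum

/-!
The polynomials of the gadgets.
-/

set_option autoImplicit false

namespace Pool.Agent.H216.PN

open MeasureTheory MvPolynomial

section
variable {ι : Type} [Fintype ι] {k : ℕ}

/-- the value of the weight -/
noncomputable def bv (K : ℕ) (x : ι → ℝ) : ℝ := K * ∏ i, (1 + x i ^ 2)

theorem one_le_prod (x : ι → ℝ) : 1 ≤ ∏ i, (1 + x i ^ 2) :=
  Finset.prod_induction _ (fun a => 1 ≤ a) (fun a b ha hb => one_le_mul_of_one_le_of_one_le ha hb)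
    le_rfl fun i _ => by nlinarith [sq_nonneg (x i)]

theorem le_bv (K : ℕ) (x : ι → ℝ) : (K : ℝ) ≤ bv K x := by
  unfold bv
  have h := one_le_prod x
  have hK : (0 : ℝ) ≤ K := Nat.cast_nonneg K
  nlinarith

/-- the coordinates: `x`, `y`, `u` -/
abbrev Kap (ι : Type) (k : ℕ) : Type := (ι ⊕ Fin k) ⊕ Unit

/-- the weight as a polynomial -/
noncomputable def bb (ι : Type) [Fintype ι] (k K : ℕ) : MvPolynomial (Kap ι k) ℚ :=
  (K : MvPolynomial (Kap ι k) ℚ) * ∏ i : ι, (1 + X (Sum.inl (Sum.inl i)) ^ 2)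

/-- the polynomial `p` in the variables `x` -/
noncomputable def pp (k : ℕ) (p : MvPolynomial ι ℚ) : MvPolynomial (Kap ι k) ℚ :=
  rename (fun i => Sum.inl (Sum.inl i)) p

/-- the variables `y` -/
noncomputable def yy (ι : Type) {k : ℕ} (j : Fin k) : MvPolynomial (Kap ι k) ℚ :=
  X (Sum.inl (Sum.inr j))

/-- the numerator -/
noncomputable def nn (K t c : ℕ) (p : Fin k → MvPolynomial ι ℚ) : MvPolynomial (Kap ι k) ℚ :=
  ((c : MvPolynomial (Kap ι k) ℚ) * ∏ j, (2 * (t : MvPolynomial (Kap ι k) ℚ) *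
    (bb ι k K - (t : MvPolynomial (Kap ι k) ℚ)) * yy ι j * pp k (p j))) ^ 2

/-- the denominator -/
noncomputable def dd (K t : ℕ) (s : ℤ) (p : Fin k → MvPolynomial ι ℚ) :
    MvPolynomial (Kap ι k) ℚ :=
  (∏ j, ((yy ι j ^ 2 * pp k (p j)) ^ 2 - 2 * (bb ι k K - 2 * (t : MvPolynomial (Kap ι k) ℚ)) *
    (yy ι j ^ 2 * pp k (p j)) + bb ι k K ^ 2) ^ 3) *
    (4 * ((X (Sum.inr ()) - (s : MvPolynomial (Kap ι k) ℚ)) ^ 2 + 1) ^ 3)

theorem aeval_bb (K : ℕ) (w : Kap ι k → ℝ) :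
    (aeval w (bb ι k K) : ℝ) = bv K fun i => w (Sum.inl (Sum.inl i)) := by
  unfold bb bv
  simp only [map_mul, map_natCast, map_prod, map_add, map_one, map_pow, aeval_X]

omit [Fintype ι] in
theorem aeval_pp (p : MvPolynomial ι ℚ) (w : Kap ι k → ℝ) :
    (aeval w (pp k p) : ℝ) = aeval (fun i => w (Sum.inl (Sum.inl i))) p := by
  unfold pp
  rw [aeval_rename]
  rfl

theorem aeval_nn (K t c : ℕ) (p : Fin k → MvPolynomial ι ℚ) (w : Kap ι k → ℝ) :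
    (aeval w (nn K t c p) : ℝ) = ((c : ℝ) * ∏ j, (2 * (t : ℝ) *
      (bv K (fun i => w (Sum.inl (Sum.inl i))) - t) * w (Sum.inl (Sum.inr j)) *
        aeval (fun i => w (Sum.inl (Sum.inl i))) (p j))) ^ 2 := by
  unfold nn yy
  simp only [map_mul, map_natCast, map_prod, map_sub, map_pow, aeval_X, aeval_bb, aeval_pp,
    map_ofNat]

theorem aeval_dd (K t : ℕ) (s : ℤ) (p : Fin k → MvPolynomial ι ℚ) (w : Kap ι k → ℝ) :
    (aeval w (dd K t s p) : ℝ) = (∏ j, ((w (Sum.inl (Sum.inr j)) ^ 2 *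
      aeval (fun i => w (Sum.inl (Sum.inl i))) (p j)) ^ 2 -
        2 * (bv K (fun i => w (Sum.inl (Sum.inl i))) - 2 * (t : ℝ)) *
          (w (Sum.inl (Sum.inr j)) ^ 2 * aeval (fun i => w (Sum.inl (Sum.inl i))) (p j)) +
        bv K (fun i => w (Sum.inl (Sum.inl i))) ^ 2) ^ 3) *
      (4 * ((w (Sum.inr ()) - s) ^ 2 + 1) ^ 3) := by
  unfold dd yy
  simp only [map_mul, map_natCast, map_prod, map_sub, map_add, map_one, map_pow, aeval_X, aeval_bb,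
    aeval_pp, map_ofNat, map_intCast]

theorem nn_nonneg (K t c : ℕ) (p : Fin k → MvPolynomial ι ℚ) (w : Kap ι k → ℝ) :
    0 ≤ (aeval w (nn K t c p) : ℝ) := by
  rw [aeval_nn]
  positivity

theorem q_ge {B t w : ℝ} (h1 : 1 ≤ t) (h2 : t + 1 ≤ B) :
    4 ≤ w ^ 2 - 2 * (B - 2 * t) * w + B ^ 2 := by
  have h3 : w ^ 2 - 2 * (B - 2 * t) * w + B ^ 2 = (w - (B - 2 * t)) ^ 2 + 4 * t * (B - t) := by
    ring
  rw [h3]
  nlinarith [sq_nonneg (w - (B - 2 * t))]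

theorem one_le_dd {K t : ℕ} (h1 : 1 ≤ t) (h2 : t + 1 ≤ K) (s : ℤ) (p : Fin k → MvPolynomial ι ℚ)
    (w : Kap ι k → ℝ) : 1 ≤ (aeval w (dd K t s p) : ℝ) := by
  rw [aeval_dd]
  have ht : (1 : ℝ) ≤ t := by exact_mod_cast h1
  have hK : (t : ℝ) + 1 ≤ bv K (fun i => w (Sum.inl (Sum.inl i))) := by
    refine le_trans ?_ (le_bv K _)
    exact_mod_cast h2
  refine one_le_mul_of_one_le_of_one_le ?_ ?_
  · refine Finset.prod_induction _ (fun a => 1 ≤ a)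
      (fun a b ha hb => one_le_mul_of_one_le_of_one_le ha hb) le_rfl fun j _ => ?_
    exact one_le_pow₀ (by linarith [q_ge (w := w (Sum.inl (Sum.inr j)) ^ 2 *
      aeval (fun i => w (Sum.inl (Sum.inl i))) (p j)) ht hK])
  · have h3 : (1 : ℝ) ≤ ((w (Sum.inr ()) - s) ^ 2 + 1) ^ 3 :=
      one_le_pow₀ (by nlinarith [sq_nonneg (w (Sum.inr ()) - s)])
    linarith

omit [Fintype ι] in
theorem sqrt_form {c r : ℝ} (hc : 0 ≤ c) (a q : Fin k → ℝ) (hq : ∀ j, 0 ≤ q j) :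
    Real.sqrt ((c * ∏ j, a j) ^ 2 / ((∏ j, q j ^ 3) * r)) =
      (c * ∏ j, Real.sqrt (a j ^ 2 / q j ^ 3)) * Real.sqrt (1 / r) := by
  have h0 : ∀ j, 0 ≤ a j ^ 2 / q j ^ 3 := fun j => div_nonneg (sq_nonneg _) (pow_nonneg (hq j) 3)
  have h1 : (c * ∏ j, a j) ^ 2 / ((∏ j, q j ^ 3) * r) =
      (c ^ 2 * ∏ j, (a j ^ 2 / q j ^ 3)) * (1 / r) := by
    simp only [Finset.prod_div_distrib, mul_pow, Finset.prod_pow]
    ring
  rw [h1, Real.sqrt_mul (mul_nonneg (sq_nonneg c) (Finset.prod_nonneg fun j _ => h0 j)),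
    Real.sqrt_mul (sq_nonneg c), Real.sqrt_sq hc, Real.sqrt_prod _ fun j _ => h0 j]

theorem sqrt_nn_dd (K t c : ℕ) (s : ℤ) (p : Fin k → MvPolynomial ι ℚ) (w : Kap ι k → ℝ)
    (h1 : 1 ≤ t) (h2 : t + 1 ≤ K) :
    Real.sqrt ((aeval w (nn K t c p) : ℝ) / aeval w (dd K t s p)) =
      (c * ∏ j, gd (bv K fun i => w (Sum.inl (Sum.inl i))) t
        (aeval (fun i => w (Sum.inl (Sum.inl i))) (p j)) (w (Sum.inl (Sum.inr j)))) *
      Real.sqrt (1 / (4 * ((w (Sum.inr ()) - s) ^ 2 + 1) ^ 3)) := by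
  have ht : (1 : ℝ) ≤ t := by exact_mod_cast h1
  have hK : (t : ℝ) + 1 ≤ bv K (fun i => w (Sum.inl (Sum.inl i))) := by
    refine le_trans ?_ (le_bv K _)
    exact_mod_cast h2
  rw [aeval_nn, aeval_dd]
  exact sqrt_form (Nat.cast_nonneg c) _ _ fun j => by linarith [q_ge (w :=
    w (Sum.inl (Sum.inr j)) ^ 2 * aeval (fun i => w (Sum.inl (Sum.inl i))) (p j)) ht hK]

end

end Pool.Agent.H216.PN
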