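import Pool.Agent.H216.PN.Main

/-!
The square root in the gadget as an integral of a rational function.
-/

set_option autoImplicit false

namespace Pool.Agent.H216.PN

open MeasureTheory Filter Topology

theorem hasDerivAt_prim (u : ℝ) :
    HasDerivAt (fun u : ℝ => (u / (1 + u ^ 2) + Real.arctan u) / 2) (1 / (1 + u ^ 2) ^ 2) u := by
  have h0 : (1 + u ^ 2) ≠ 0 := by positivity
  have h1 : HasDerivAt (fun u : ℝ => 1 + u ^ 2) (2 * u) u := by
    have := (hasDerivAt_pow 2 u).const_add 1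
    simpa using this
  have h2 := (((hasDerivAt_id u).div h1 h0).add (Real.hasDerivAt_arctan u)).div_const 2
  have e : (1 / (1 + u ^ 2) ^ 2 : ℝ) =
      ((1 * (1 + u ^ 2) - id u * (2 * u)) / (1 + u ^ 2) ^ 2 + 1 / (1 + u ^ 2)) / 2 := by
    simp only [id]
    field_simp
    ring
  rw [e]
  exact h2

theorem tendsto_frac_top : Tendsto (fun u : ℝ => u / (1 + u ^ 2)) atTop (𝓝 0) := by
  have h1 : Tendsto (fun u : ℝ => u⁻¹) atTop (𝓝 0) := tendsto_inv_atTop_zero
  refine squeeze_zero' ?_ ?_ h1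
  · filter_upwards [eventually_gt_atTop 0] with u hu
    positivity
  · filter_upwards [eventually_gt_atTop 0] with u hu
    rw [div_le_iff₀ (by positivity)]
    field_simp
    nlinarith

theorem tendsto_frac_bot : Tendsto (fun u : ℝ => u / (1 + u ^ 2)) atBot (𝓝 0) := by
  have h1 := (tendsto_frac_top.comp tendsto_neg_atBot_atTop).neg
  rw [neg_zero] at h1
  refine h1.congr fun u => ?_
  simp only [Function.comp]
  rw [neg_sq]
  ring

theorem int_sq : Integrable (fun u : ℝ => 1 / (1 + u ^ 2) ^ 2) ∧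
    ∫ u : ℝ, 1 / (1 + u ^ 2) ^ 2 = Real.pi / 2 := by
  have hi : Integrable (fun u : ℝ => 1 / (1 + u ^ 2) ^ 2) := by
    have hc : Continuous (fun u : ℝ => 1 / (1 + u ^ 2) ^ 2) := by
      refine continuous_const.div (by fun_prop) fun u => ?_
      positivity
    refine (integrable_inv_one_add_sq).mono' hc.aestronglyMeasurable
      (Eventually.of_forall fun u => ?_)
    rw [Real.norm_eq_abs, abs_of_nonneg (by positivity), ← one_div]
    refine one_div_le_one_div_of_le (by positivity) ?_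
    nlinarith [sq_nonneg u, sq_nonneg (u ^ 2)]
  refine ⟨hi, ?_⟩
  have hb : Tendsto (fun u : ℝ => (u / (1 + u ^ 2) + Real.arctan u) / 2) atBot
      (𝓝 ((0 + -(Real.pi / 2)) / 2)) :=
    (tendsto_frac_bot.add (tendsto_nhds_of_tendsto_nhdsWithin Real.tendsto_arctan_atBot)).div_const 2
  have ht : Tendsto (fun u : ℝ => (u / (1 + u ^ 2) + Real.arctan u) / 2) atTop
      (𝓝 ((0 + Real.pi / 2) / 2)) :=
    (tendsto_frac_top.add (tendsto_nhds_of_tendsto_nhdsWithin Real.tendsto_arctan_atTop)).div_const 2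
  rw [integral_of_hasDerivAt_of_tendsto hasDerivAt_prim hi hb ht]
  ring

theorem z_int {A C K : ℝ} (hA : 0 < A) (hC : 0 < C) (hK : 0 ≤ K) :
    ∫⁻ z : ℝ, ENNReal.ofReal (K / (A * z ^ 2 + C) ^ 2) =
      ENNReal.ofReal (Real.pi * (K / (2 * Real.sqrt A * Real.sqrt (C ^ 3)))) := by
  obtain ⟨h1, h2⟩ := int_sq
  have hr : 0 < Real.sqrt (A / C) := Real.sqrt_pos.2 (div_pos hA hC)
  have e : (fun z : ℝ => K / (A * z ^ 2 + C) ^ 2) =
      fun z => (K / C ^ 2) * (fun u : ℝ => 1 / (1 + u ^ 2) ^ 2) (Real.sqrt (A / C) * z) := by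
    funext z
    simp only [mul_pow]
    rw [Real.sq_sqrt (div_pos hA hC).le]
    have h3 : A * z ^ 2 + C ≠ 0 := by positivity
    have h4 : 1 + A / C * z ^ 2 ≠ 0 := by positivity
    field_simp
    ring
  have hi : Integrable (fun z : ℝ => K / (A * z ^ 2 + C) ^ 2) := by
    rw [e]
    exact (h1.comp_mul_left' hr.ne').const_mul _
  rw [← ofReal_integral_eq_lintegral_ofReal hi (Eventually.of_forall fun z => by positivity), e,
    integral_const_mul, Measure.integral_comp_mul_left (fun u : ℝ => 1 / (1 + u ^ 2) ^ 2), h2,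
    smul_eq_mul, abs_of_pos (inv_pos.2 hr)]
  congr 1
  have hsA : 0 < Real.sqrt A := Real.sqrt_pos.2 hA
  have hsC : 0 < Real.sqrt C := Real.sqrt_pos.2 hC
  have h5 : Real.sqrt (C ^ 3) = C * Real.sqrt C := by
    rw [show C ^ 3 = C ^ 2 * C by ring, Real.sqrt_mul (sq_nonneg C), Real.sqrt_sq hC.le]
  rw [h5, Real.sqrt_div hA.le]
  field_simp
  rw [Real.sq_sqrt hC.le]

/-- the rational function of the gadget -/
noncomputable def gr (B t p y z : ℝ) : ℝ :=
  4 * t * (B - t) * (y * p) ^ 2 /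
    ((y * p) ^ 2 * z ^ 2 + ((y ^ 2 * p) ^ 2 - 2 * (B - 2 * t) * (y ^ 2 * p) + B ^ 2)) ^ 2

theorem gr_int {B t p y : ℝ} (ht : 1 ≤ t) (hB : t + 1 ≤ B) (hp : p ≠ 0) (hy : y ≠ 0) :
    ∫⁻ z : ℝ, ENNReal.ofReal (gr B t p y z) = ENNReal.ofReal (Real.pi * gd B t p y) := by
  have hq := q_ge (w := y ^ 2 * p) ht hB
  have h1 : 0 < (y * p) ^ 2 := by positivity
  have h2 : 0 < t * (B - t) := by nlinarith
  unfold gr gd
  rw [z_int h1 (by linarith) (by nlinarith [mul_nonneg h2.le h1.le])]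
  congr 2
  rw [Real.sqrt_div (sq_nonneg _), Real.sqrt_sq_eq_abs, Real.sqrt_sq_eq_abs]
  have e1 : 2 * t * (B - t) * y * p = (2 * (t * (B - t))) * (y * p) := by ring
  rw [e1, abs_mul (2 * (t * (B - t))) (y * p), abs_of_pos (by linarith : 0 < 2 * (t * (B - t)))]
  have h3 : 0 < |y * p| := abs_pos.2 (mul_ne_zero hy hp)
  have h4 : 0 < Real.sqrt (((y ^ 2 * p) ^ 2 - 2 * (B - 2 * t) * (y ^ 2 * p) + B ^ 2) ^ 3) := by
    refine Real.sqrt_pos.2 (pow_pos (by linarith) 3)
  have h5 : (y * p) ^ 2 = |y * p| ^ 2 := (sq_abs _).symm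
  rw [h5]
  field_simp
  ring

end Pool.Agent.H216.PN
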